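import Pool.Agent.Helper38_SA.TabF

/-! Size of the rest functional after 1200 steps. -/

namespace SA.H38

open Finset

def psum (f : ℕ → ℕ) : ℕ → ℕ
  | 0 => 0
  | n + 1 => psum f n + f n

theorem psum_eq (f : ℕ → ℕ) (n : ℕ) : psum f n = ∑ i ∈ range n, f i := by
  induction n with
  | zero => rfl
  | succ n ih => rw [psum, ih, sum_range_succ]

def hA (r : ℕ) : ℕ := psum (fun i => eN (1201 - r + i)) r + eN (1200 - r) + r * 2 ^ 200
def hB (r : ℕ) : ℕ := psum (fun i => rN (1201 - r + i)) r + (r + 1) * eN 1200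
/-- |a - b| -/
def dist' (a b : ℕ) : ℕ := (a - b) + (b - a)
def hN (r : ℕ) : ℕ := dist' (hA r) (hB r)
def inner : ℕ :=
  42 * psum (fun i => (hN (55 - i) + 4 * 10 ^ 28) * xN (i + 11)) 55 +
    (39 * (dist' (rN 1200) (2 ^ 200) + 4 * 10 ^ 28) + (dist' (eN 1200) (2 ^ 200) + 4 * 10 ^ 28)) *
      (42 * (psum (fun i => (55 - i) * xN (i + 11)) 55 + 56 * 2 ^ 56))

theorem chkH_ok : Nat.ble (10 ^ 5 * (xN 1200 * inner)) (440 * (2 ^ 56 * 2 ^ 200 * 2 ^ 56)) = true := by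
  decide +kernel

theorem dist'_cast (a b : ℕ) : ((dist' a b : ℕ) : ℝ) = |(a : ℝ) - b| := by
  unfold dist'
  rcases le_total a b with h | h
  · rw [Nat.sub_eq_zero_of_le h, zero_add, Nat.cast_sub h, abs_sub_comm, abs_of_nonneg]
    exact sub_nonneg.2 (by exact_mod_cast h)
  · rw [Nat.sub_eq_zero_of_le h, add_zero, Nat.cast_sub h, abs_of_nonneg]
    exact sub_nonneg.2 (by exact_mod_cast h)

/-- error of one table value, up to 1210 -/
theorem err_le {x : ℝ} {n : ℕ} (hn : n ≤ 1210) (h : x ≤ Ce * 1.037 ^ n) : x ≤ 1.3 / 10 ^ 34 := by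
  refine h.trans ?_
  refine (mul_le_mul_of_nonneg_left (pow_l hn) (by unfold Ce; positivity)).trans ?_
  unfold Ce
  norm_num

theorem r_bound {T : ℝ} {b : ℕ → BV} (hO : Orb T b)
    (herr : ∀ n, n ≤ 1210 → |aE n - (b n).E| ≤ Ce * 1.037 ^ n ∧ |aR n - (b n).R| ≤ Ce * 1.037 ^ n)
    (r : ℕ) (hr : r ≤ 55) :
    |(b 1200).r r| ≤ ((hN r : ℝ) + 4 * 10 ^ 28) / 2 ^ 200 := by
  have h1 := hO.chain (1200 - r) 0 r
  rw [zero_add, Nat.sub_add_cancel (by omega), hO.zero', show 1200 - r + 1 = 1201 - r by omega] at h1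
  have e : ∀ n, n ≤ 1210 → |aE n - (b n).E| ≤ 1.3 / 10 ^ 34 := fun n hn => err_le hn (herr n hn).1
  have e' : ∀ n, n ≤ 1210 → |aR n - (b n).R| ≤ 1.3 / 10 ^ 34 := fun n hn => err_le hn (herr n hn).2
  have h2 : (((hA r : ℕ) : ℝ) - (hB r : ℕ)) / 2 ^ 200 =
      ∑ i ∈ range r, aE (1201 - r + i) - ∑ i ∈ range r, aR (1201 - r + i) - ((r : ℝ) + 1) * aE 1200
        + aE (1200 - r) := by
    unfold hA hB
    rw [psum_eq, psum_eq]
    simp only [Nat.cast_add, Nat.cast_mul, Nat.cast_pow, Nat.cast_ofNat, Nat.cast_sum, Nat.cast_one]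
    unfold aE aR
    rw [← sum_div, ← sum_div, sum_sub_distrib, sum_sub_distrib]
    simp only [sum_const, card_range, nsmul_eq_mul]
    generalize (2 : ℝ) ^ 200 = s
    ring
  have h3 : |(b 1200).r r - (((hA r : ℕ) : ℝ) - (hB r : ℕ)) / 2 ^ 200| ≤ 4 * 10 ^ 28 / 2 ^ 200 := by
    rw [h2, h1]
    have s1 : |∑ i ∈ range r, (aR (1201 - r + i) - (b (1201 - r + i)).R)| ≤ 55 * (1.3 / 10 ^ 34) := by
      refine (abs_sum_le_sum_abs _ _).trans ?_
      refine (sum_le_sum (g := fun _ => (1.3 : ℝ) / 10 ^ 34) fun i hi => ?_).trans ?_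
      · rw [mem_range] at hi
        exact e' _ (by omega)
      · rw [sum_const, card_range, nsmul_eq_mul]
        exact mul_le_mul_of_nonneg_right (by exact_mod_cast hr) (by positivity)
    have s2 : |∑ i ∈ range r, (aE (1201 - r + i) - (b (1201 - r + i)).E)| ≤ 55 * (1.3 / 10 ^ 34) := by
      refine (abs_sum_le_sum_abs _ _).trans ?_
      refine (sum_le_sum (g := fun _ => (1.3 : ℝ) / 10 ^ 34) fun i hi => ?_).trans ?_
      · rw [mem_range] at hi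
        exact e _ (by omega)
      · rw [sum_const, card_range, nsmul_eq_mul]
        exact mul_le_mul_of_nonneg_right (by exact_mod_cast hr) (by positivity)
    have s3 : |((r : ℝ) + 1) * (aE 1200 - (b 1200).E)| ≤ 56 * (1.3 / 10 ^ 34) := by
      rw [abs_mul, abs_of_nonneg (by positivity)]
      refine mul_le_mul ?_ (e 1200 (by norm_num)) (abs_nonneg _) (by norm_num)
      have : (r : ℝ) ≤ 55 := by exact_mod_cast hr
      linarith
    have s4 := e (1200 - r) (by omega)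
    rw [sum_sub_distrib] at s1 s2
    have s1 := abs_le.1 s1
    have s2 := abs_le.1 s2
    have s3 := abs_le.1 s3
    have s4 := abs_le.1 s4
    have s5 : (55 : ℝ) * (1.3 / 10 ^ 34) + 55 * (1.3 / 10 ^ 34) + 56 * (1.3 / 10 ^ 34) + 1.3 / 10 ^ 34
        ≤ 4 * 10 ^ 28 / 2 ^ 200 := by norm_num
    rw [abs_le]
    simp only [Nat.cast_zero, zero_add, one_mul]
    constructor <;> linarith
  have h4 : |(((hA r : ℕ) : ℝ) - (hB r : ℕ)) / 2 ^ 200| = (hN r : ℝ) / 2 ^ 200 := by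
    rw [abs_div, abs_of_pos (by positivity : (0 : ℝ) < 2 ^ 200), hN, dist'_cast]
  have h5 : (b 1200).r r = ((b 1200).r r - (((hA r : ℕ) : ℝ) - (hB r : ℕ)) / 2 ^ 200) +
      (((hA r : ℕ) : ℝ) - (hB r : ℕ)) / 2 ^ 200 := by ring
  rw [h5, add_div]
  refine (abs_add_le _ _).trans ?_
  rw [h4, add_comm]
  exact add_le_add le_rfl h3

theorem inner_eq : inner =
  42 * psum (fun i => (hN (55 - i) + 4 * 10 ^ 28) * xN (i + 11)) 55 +
    (39 * (dist' (rN 1200) (2 ^ 200) + 4 * 10 ^ 28) + (dist' (eN 1200) (2 ^ 200) + 4 * 10 ^ 28)) *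
      (42 * (psum (fun i => (55 - i) * xN (i + 11)) 55 + 56 * 2 ^ 56)) := rfl

attribute [local irreducible] hN inner dist' xN rN eN

theorem hor : HorStmt := by
  intro T x0 z th hlo hhi hR
  obtain ⟨hO, herr⟩ := main_err hlo hhi hR
  obtain ⟨hx1, hx2⟩ := x0_facts hR.x0_enc
  generalize brest T x0 z th = b at *
  have hx0 : (0 : ℝ) ≤ x0 := by linarith
  have hpow : ∀ n, n ≤ 1201 → x0 ^ n ≤ (1 + 1 / 10 ^ 13) * ((xN n : ℝ) / 2 ^ 56) := by
    intro n hn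
    have h1 := (abs_le.1 (X_err hR.x0_enc n hn)).1
    have h2 : (n : ℝ) * (1.5 / 10 ^ 17) ≤ 2 / 10 ^ 14 := by
      have h3 : (n : ℝ) ≤ 1201 := by exact_mod_cast hn
      have := mul_le_mul_of_nonneg_right h3 (by positivity : (0 : ℝ) ≤ 1.5 / 10 ^ 17)
      refine this.trans ?_
      norm_num
    have h3 : (0 : ℝ) ≤ x0 ^ n := by positivity
    have h4 := mul_le_mul_of_nonneg_left h2 h3
    have h5 : x0 ^ n * (1 - 2 / 10 ^ 14) ≤ (xN n : ℝ) / 2 ^ 56 := by linarith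
    have h6 := mul_le_mul_of_nonneg_left h5 (by positivity : (0 : ℝ) ≤ 1 + 1 / 10 ^ 13)
    have h7 : (1 : ℝ) ≤ (1 + 1 / 10 ^ 13) * (1 - 2 / 10 ^ 14) := by norm_num
    have h8 := mul_le_mul_of_nonneg_left h7 h3
    linarith
  have hRb : |(b 1200).R| ≤ ((dist' (rN 1200) (2 ^ 200) : ℕ) + 4 * 10 ^ 28) / 2 ^ 200 := by
    have h1 := err_le (n := 1200) (by norm_num) (herr 1200 (by norm_num)).2
    have h2 : |aR 1200| = (dist' (rN 1200) (2 ^ 200) : ℕ) / 2 ^ 200 := by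
      rw [dist'_cast, aR, abs_div, abs_of_pos (by positivity : (0 : ℝ) < 2 ^ 200), Nat.cast_pow,
        Nat.cast_ofNat]
    have h3 : (1.3 : ℝ) / 10 ^ 34 ≤ 4 * 10 ^ 28 / 2 ^ 200 := by norm_num
    have h4 : (b 1200).R = aR 1200 - (aR 1200 - (b 1200).R) := by ring
    rw [h4, add_div, ← h2]
    exact (abs_sub _ _).trans (add_le_add le_rfl (h1.trans h3))
  have hEb : |(b 1200).E| ≤ ((dist' (eN 1200) (2 ^ 200) : ℕ) + 4 * 10 ^ 28) / 2 ^ 200 := by
    have h1 := err_le (n := 1200) (by norm_num) (herr 1200 (by norm_num)).1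
    have h2 : |aE 1200| = (dist' (eN 1200) (2 ^ 200) : ℕ) / 2 ^ 200 := by
      rw [dist'_cast, aE, abs_div, abs_of_pos (by positivity : (0 : ℝ) < 2 ^ 200), Nat.cast_pow,
        Nat.cast_ofNat]
    have h3 : (1.3 : ℝ) / 10 ^ 34 ≤ 4 * 10 ^ 28 / 2 ^ 200 := by norm_num
    have h4 : (b 1200).E = aE 1200 - (aE 1200 - (b 1200).E) := by ring
    rw [h4, add_div, ← h2]
    exact (abs_sub _ _).trans (add_le_add le_rfl (h1.trans h3))
  -- sums over range 55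
  have hIcc : ∀ f : ℕ → ℝ, ∑ d ∈ Icc 1 55, f d = ∑ i ∈ range 55, f (i + 1) := by
    intro f
    have : Icc 1 55 = Ico 1 56 := by
      ext x
      simp only [mem_Icc, mem_Ico]
      omega
    rw [this, sum_Ico_eq_sum_range]
    refine sum_congr rfl fun i _ => ?_
    rw [add_comm]
  unfold Ebar
  rw [hIcc, hIcc]
  set δ : ℝ := 1 + 1 / 10 ^ 13 with hδ
  have hδ1 : (1 : ℝ) ≤ δ := by rw [hδ]; norm_num
  set S1 : ℝ := ∑ i ∈ range 55, ((hN (55 - i) : ℝ) + 4 * 10 ^ 28) / 2 ^ 200 *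
    (4.2 * ((xN (i + 11) : ℝ) / 2 ^ 56)) with hS1
  set S2 : ℝ := ∑ i ∈ range 55, (((55 - i : ℕ)) : ℝ) * (4.2 * ((xN (i + 11) : ℝ) / 2 ^ 56)) +
    56 * 4.2 with hS2
  have hS2p : 0 ≤ S2 := by positivity
  have k1 : ∑ i ∈ range 55, |(b 1200).r (56 - (i + 1))| * (4.2 * x0 ^ (i + 1 + 10)) ≤ δ * S1 := by
    rw [hS1, mul_sum]
    refine sum_le_sum fun i hi => ?_
    rw [mem_range] at hi
    rw [show 56 - (i + 1) = 55 - i by omega, show i + 1 + 10 = i + 11 by omega]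
    have h1 := r_bound hO herr (55 - i) (by omega)
    have h2 := hpow (i + 11) (by omega)
    calc |(b 1200).r (55 - i)| * (4.2 * x0 ^ (i + 11)) ≤
        ((hN (55 - i) : ℝ) + 4 * 10 ^ 28) / 2 ^ 200 * (4.2 * (δ * ((xN (i + 11) : ℝ) / 2 ^ 56))) :=
          mul_le_mul h1 (by linarith) (by positivity) (by positivity)
      _ = _ := by ring
  have k2 : ∑ i ∈ range 55, (56 - ((i + 1 : ℕ) : ℝ)) * (4.2 * x0 ^ (i + 1 + 10)) + 56 * 4.2 ≤
      δ * S2 := by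
    rw [hS2, mul_add, mul_sum]
    refine add_le_add (sum_le_sum fun i hi => ?_) (by nlinarith)
    rw [mem_range] at hi
    rw [show i + 1 + 10 = i + 11 by omega]
    have h2 := hpow (i + 11) (by omega)
    have h3 : (56 - ((i + 1 : ℕ) : ℝ)) = ((55 - i : ℕ) : ℝ) := by
      rw [Nat.cast_sub (by omega)]
      push_cast
      ring
    rw [h3]
    calc ((55 - i : ℕ) : ℝ) * (4.2 * x0 ^ (i + 11)) ≤
        ((55 - i : ℕ) : ℝ) * (4.2 * (δ * ((xN (i + 11) : ℝ) / 2 ^ 56))) :=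
          mul_le_mul_of_nonneg_left (by linarith) (Nat.cast_nonneg _)
      _ = _ := by ring
  set E1 : ℝ := ∑ i ∈ range 55, (56 - ((i + 1 : ℕ) : ℝ)) * (4.2 * x0 ^ (i + 1 + 10)) + 56 * 4.2
    with hE1
  have hE1p : 0 ≤ E1 := by
    rw [hE1]
    refine add_nonneg (sum_nonneg fun i hi => ?_) (by norm_num)
    rw [mem_range] at hi
    have : (((i + 1 : ℕ)) : ℝ) ≤ 56 := by exact_mod_cast (by omega : i + 1 ≤ 56)
    exact mul_nonneg (by linarith) (by positivity)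
  set ρ : ℝ := ((dist' (rN 1200) (2 ^ 200) : ℕ) + 4 * 10 ^ 28) / 2 ^ 200 with hρ
  set η : ℝ := ((dist' (eN 1200) (2 ^ 200) : ℕ) + 4 * 10 ^ 28) / 2 ^ 200 with hη
  have hρ0 : 0 ≤ ρ := (abs_nonneg _).trans hRb
  have hη0 : 0 ≤ η := (abs_nonneg _).trans hEb
  have k3 : |(b 1200).R| * (39 * E1) ≤ ρ * (39 * (δ * S2)) :=
    mul_le_mul hRb (by linarith) (by positivity) hρ0
  have k4 : |(b 1200).E| * E1 ≤ η * (δ * S2) := mul_le_mul hEb k2 hE1p hη0
  have k5 := hpow 1200 (by norm_num)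
  have hS1p : 0 ≤ S1 := by
    rw [hS1]
    refine sum_nonneg fun i _ => mul_nonneg (div_nonneg (add_nonneg (Nat.cast_nonneg _) ?_) ?_) ?_
    · positivity
    · positivity
    · positivity
  have k6 : x0 ^ 1200 * (∑ i ∈ range 55, |(b 1200).r (56 - (i + 1))| * (4.2 * x0 ^ (i + 1 + 10)) +
      |(b 1200).R| * (39 * E1) + |(b 1200).E| * E1) ≤
      (δ * ((xN 1200 : ℝ) / 2 ^ 56)) * (δ * (S1 + 39 * ρ * S2 + η * S2)) := by
    have e : δ * (S1 + 39 * ρ * S2 + η * S2) = δ * S1 + ρ * (39 * (δ * S2)) + η * (δ * S2) := by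
      ring
    refine mul_le_mul k5 ?_ ?_ (by positivity)
    · rw [e]
      exact add_le_add (add_le_add k1 k3) k4
    · refine add_nonneg (add_nonneg (sum_nonneg fun i _ => ?_) ?_) ?_
      · exact mul_nonneg (abs_nonneg _) (by positivity)
      · exact mul_nonneg (abs_nonneg _) (by positivity)
      · exact mul_nonneg (abs_nonneg _) hE1p
  refine k6.trans ?_
  have k7 : ((xN 1200 : ℝ) / 2 ^ 56) * (S1 + 39 * ρ * S2 + η * S2) ≤ 4.4 / 10 ^ 4 := by
    have h1 : ((10 ^ 5 * (xN 1200 * inner) : ℕ) : ℝ) ≤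
        ((440 * (2 ^ 56 * 2 ^ 200 * 2 ^ 56) : ℕ) : ℝ) := by
      exact_mod_cast Nat.le_of_ble_eq_true chkH_ok
    have h2 : (inner : ℝ) = 10 * 2 ^ 200 * 2 ^ 56 * (S1 + 39 * ρ * S2 + η * S2) := by
      rw [inner_eq, psum_eq, psum_eq]
      simp only [Nat.cast_add, Nat.cast_mul, Nat.cast_pow, Nat.cast_ofNat, Nat.cast_sum]
      have h3 : S1 = (∑ i ∈ range 55, ((hN (55 - i) : ℝ) + 4 * 10 ^ 28) * (xN (i + 11) : ℝ)) *
          (4.2 / (2 ^ 200 * 2 ^ 56)) := by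
        rw [hS1, sum_mul]
        refine sum_congr rfl fun i _ => ?_
        ring
      have h4 : S2 = (∑ i ∈ range 55, ((55 - i : ℕ) : ℝ) * (xN (i + 11) : ℝ) + 56 * 2 ^ 56) *
          (4.2 / 2 ^ 56) := by
        rw [hS2, add_mul, sum_mul]
        congr 1
        · refine sum_congr rfl fun i _ => ?_
          ring
        · norm_num
      rw [h3, h4, hρ, hη]
      generalize (∑ i ∈ range 55, ((hN (55 - i) : ℝ) + 4 * 10 ^ 28) * (xN (i + 11) : ℝ)) = u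
      generalize (∑ i ∈ range 55, ((55 - i : ℕ) : ℝ) * (xN (i + 11) : ℝ)) = v
      have s200 : (0 : ℝ) < 2 ^ 200 := by positivity
      have s56 : (0 : ℝ) < 2 ^ 56 := by positivity
      generalize (2 : ℝ) ^ 200 = s at s200 ⊢
      generalize (2 : ℝ) ^ 56 = t at s56 ⊢
      field_simp
      ring
    simp only [Nat.cast_mul, Nat.cast_pow, Nat.cast_ofNat] at h1
    rw [h2] at h1
    have s200 : (0 : ℝ) < 2 ^ 200 := by positivity
    have s56 : (0 : ℝ) < 2 ^ 56 := by positivity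
    generalize S1 + 39 * ρ * S2 + η * S2 = w at h1 ⊢
    generalize (2 : ℝ) ^ 200 = s at s200 h1
    generalize (2 : ℝ) ^ 56 = t at s56 h1 ⊢
    rw [div_mul_eq_mul_div, div_le_iff₀ s56]
    have h5 : (s * t) * ((xN 1200 : ℝ) * w) ≤ (s * t) * (4.4 / 10 ^ 4 * t) := by
      nlinarith
    exact le_of_mul_le_mul_left h5 (by positivity)
  have k8 : δ * δ * (4.4 / 10 ^ 4) ≤ 4.5 / 10 ^ 4 := by rw [hδ]; norm_num
  calc (δ * ((xN 1200 : ℝ) / 2 ^ 56)) * (δ * (S1 + 39 * ρ * S2 + η * S2)) =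
      δ * δ * (((xN 1200 : ℝ) / 2 ^ 56) * (S1 + 39 * ρ * S2 + η * S2)) := by ring
    _ ≤ δ * δ * (4.4 / 10 ^ 4) := mul_le_mul_of_nonneg_left k7 (by positivity)
    _ ≤ _ := k8

end SA.H38
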