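import Pool.Agent.Helper38_SA.TabN

/-! Kernel checks of the tables. -/

namespace SA.H38

/-- evaluation of a natural number before use -/
def fc {α : Type} (n : ℕ) (f : ℕ → α) : α := Nat.casesOn n (f 0) fun m => f (m + 1)

theorem fc_eq {α : Type} (n : ℕ) (f : ℕ → α) : fc n f = f n := by
  cases n <;> rfl

def allB (f : ℕ → Bool) : ℕ → Bool
  | 0 => true
  | n + 1 => f n && allB f n

theorem allB_spec {f : ℕ → Bool} : ∀ {n : ℕ}, allB f n = true → ∀ i, i < n → f i = true
  | 0, _, i, hi => absurd hi (Nat.not_lt_zero i)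
  | n + 1, h, i, hi => by
    rw [allB, Bool.and_eq_true] at h
    rcases Nat.lt_succ_iff_lt_or_eq.1 hi with h1 | h1
    · exact allB_spec h.2 i h1
    · exact h1 ▸ h.1

def eN (n : ℕ) : ℕ := pk NE 204 n
def rN (n : ℕ) : ℕ := pk NR 204 n
def fN (n : ℕ) : ℕ := pk NF 204 n
def xN (n : ℕ) : ℕ := pk NX 124 n

/-- |a - b| ≤ c -/
def near (a b c : ℕ) : Bool := Nat.ble a (b + c) && Nat.ble b (a + c)

def chkA (n : ℕ) : Bool :=
  near (Tm * rN n + 2 ^ 400) (Tm * rN (n + 1) + 2 ^ 200 * eN n) Tm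

def chkB (n : ℕ) : Bool :=
  near (56 * eN (n + 57) + eN n + rN (n + 57)) (57 * eN (n + 56) + rN (n + 1)) 56

def chkC (n : ℕ) : Bool :=
  near (56 * eN (n + 2) + eN 0 + rN (n + 2) + fN n) (57 * eN (n + 1) + fN (n + 1) + 2 ^ 200) 56

def chkX (n : ℕ) : Bool :=
  near (xN (n + 1) * 10 ^ 65) (xN n * x0N) (10 ^ 65)

theorem chkA_ok : allB chkA 1210 = true := by decide +kernel
theorem chkB_ok : allB chkB 1154 = true := by decide +kernel
theorem chkC_ok : allB chkC 55 = true := by decide +kernel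
theorem chkX_ok : allB chkX 1201 = true := by decide +kernel

end SA.H38
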