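import Pool.Agent.Helper38_SA.TabI

/-! The table of responses. -/

namespace SA.H38

open Finset

/-! ## formula for the response -/

theorem Orb.diff {T : ℝ} {b : ℕ → BV} (h : Orb T b) (k : ℕ) : ∀ l : ℕ, k ≤ 54 →
    (b l).r (55 - k) - (b (l + 1)).r (55 - k) = (b (l + 1)).R - (b (l + k + 2)).R
      - (56 - (k : ℝ)) * (b l).E + (55 - (k : ℝ)) * (b (l + 1)).E + 57 * (b (l + k + 1)).E
      - 56 * (b (l + k + 2)).E := by
  induction k with
  | zero =>
    intro l _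
    have h1 := h.E l
    have h2 := h.E (l + 1)
    simp only [Nat.sub_zero, Nat.cast_zero, add_zero, sub_zero]
    rw [show l + 2 = l + 1 + 1 by omega]
    linarith
  | succ k ih =>
    intro l hk
    have h0 := ih (l + 1) (by omega)
    have h1 := h.r l (54 - k)
    have h2 := h.r (l + 1) (54 - k)
    rw [show 54 - k + 1 = 55 - k by omega] at h1 h2
    rw [show 55 - (k + 1) = 54 - k by omega]
    rw [show l + 1 + k + 2 = l + (k + 1) + 2 by omega, show l + 1 + k + 1 = l + (k + 1) + 1 by omega]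
      at h0
    have h3 : ((54 - k : ℕ) : ℝ) = 54 - k := by
      rw [Nat.cast_sub (by omega)]
      norm_num
    rw [h3] at h1 h2
    push_cast
    linarith

/-! ## chunks and the check -/

def ck (N l : ℕ) : ℕ := (N >>> (204 * l)) % 2 ^ 2448

theorem pk_ck (N l i : ℕ) (hi : i < 12) : pk (ck N l) 204 i = pk N 204 (l + i) := by
  unfold pk ck
  apply Nat.eq_of_testBit_eq
  intro j
  simp only [Nat.testBit_mod_two_pow, Nat.testBit_shiftRight]
  by_cases hj : j < 204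
  · have h1 : 204 * i + j < 2448 := by omega
    simp only [hj, h1, decide_true, Bool.true_and]
    congr 1
    ring
  · simp [hj]

/-- the inequality for one entry of the table: E, R chunks, X, packed table G -/
def cond (e r x G l d : ℕ) : Bool :=
  near (10 ^ 10 * x * (56 * (pk r 204 1 + (56 - d) * pk e 204 1 + 57 * pk e 204 d)
      + (if l = 0 then (56 - d) * 2 ^ 200 else 0)) + 56 * 2 ^ 256 * 2 ^ 39)
    (10 ^ 10 * x * (56 * (pk r 204 (d + 1) + (57 - d) * pk e 204 0 + 56 * pk e 204 (d + 1)))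
      + 56 * 2 ^ 256 * ((G >>> (40 * l)) % 2 ^ 40)) (56 * 2 ^ 256)

def chkT (l : ℕ) : Bool :=
  fc (ck NE l) fun e => fc (ck NR l) fun r => fc (xN (l + 1)) fun x =>
    cond e r x gN1 l 1 && cond e r x gN2 l 2 && cond e r x gN3 l 3 && cond e r x gN4 l 4 &&
    cond e r x gN5 l 5 && cond e r x gN6 l 6 && cond e r x gN7 l 7 && cond e r x gN8 l 8 &&
    cond e r x gN9 l 9 && cond e r x gN10 l 10

theorem chkT_ok : allB chkT 1200 = true := by decide +kernel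

theorem chkT_spec {l : ℕ} (h : chkT l = true) (d : ℕ) (h1 : 1 ≤ d) (h2 : d ≤ 10) :
    cond (ck NE l) (ck NR l) (xN (l + 1)) (gN d) l d = true := by
  unfold chkT at h
  simp only [fc_eq, Bool.and_eq_true] at h
  obtain ⟨⟨⟨⟨⟨⟨⟨⟨⟨c1, c2⟩, c3⟩, c4⟩, c5⟩, c6⟩, c7⟩, c8⟩, c9⟩, c10⟩ := h
  interval_cases d
  · exact c1
  · exact c2
  · exact c3
  · exact c4
  · exact c5
  · exact c6
  · exact c7
  · exact c8
  · exact c9
  · exact c10

/-- approximation of the response -/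
noncomputable def hatD (d l : ℕ) : ℝ :=
  aR (l + 1) - aR (l + d + 1) - (57 - (d : ℝ)) * aE l + (56 - (d : ℝ)) * aE (l + 1)
    + 57 * aE (l + d) - 56 * aE (l + d + 1) + (if l = 0 then (56 - (d : ℝ)) / 56 else 0)

theorem gT_cast (d l : ℕ) :
    (gT d l : ℝ) = (((gN d >>> (40 * l)) % 2 ^ 40 : ℕ) : ℝ) - 2 ^ 39 := by
  unfold gT
  rw [Int.cast_sub, Int.cast_natCast, Int.cast_pow, Int.cast_ofNat]

theorem cond_spec (d l : ℕ) (h1 : 1 ≤ d) (h2 : d ≤ 10) (hl : l < 1200) :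
    |(xN (l + 1) : ℝ) / 2 ^ 56 * hatD d l - (gT d l : ℝ) / 10 ^ 10| ≤ 1 / 10 ^ 10 := by
  have h := near_spec (chkT_spec (allB_spec chkT_ok l hl) d h1 h2)
  rw [pk_ck _ _ _ (by norm_num), pk_ck _ _ _ (by norm_num), pk_ck _ _ _ (by omega),
    pk_ck _ _ _ (by omega), pk_ck _ _ _ (by norm_num), pk_ck _ _ _ (by omega)] at h
  rw [gT_cast]
  generalize ((gN d >>> (40 * l)) % 2 ^ 40 : ℕ) = g at *
  change |((10 ^ 10 * xN (l + 1) * (56 * (rN (l + 1) + (56 - d) * eN (l + 1) + 57 * eN (l + d))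
      + (if l = 0 then (56 - d) * 2 ^ 200 else 0)) + 56 * 2 ^ 256 * 2 ^ 39 : ℕ) : ℝ) -
    ((10 ^ 10 * xN (l + 1) * (56 * (rN (l + (d + 1)) + (57 - d) * eN (l + 0) +
      56 * eN (l + (d + 1)))) + 56 * 2 ^ 256 * g : ℕ) : ℝ)| ≤ _ at h
  have hd1 : ((56 - d : ℕ) : ℝ) = 56 - d := by
    rw [Nat.cast_sub (by omega)]; norm_num
  have hd2 : ((57 - d : ℕ) : ℝ) = 57 - d := by
    rw [Nat.cast_sub (by omega)]; norm_num
  simp only [Nat.cast_add, Nat.cast_mul, Nat.cast_pow, Nat.cast_ofNat, hd1, hd2, Nat.cast_ite,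
    Nat.cast_zero, add_zero] at h
  rw [show l + (d + 1) = l + d + 1 by omega] at h
  have s200 : (0 : ℝ) < 2 ^ 200 := by positivity
  refine div_near' (s := 10 ^ 10 * (56 * 2 ^ 256)) (by positivity) (h.trans_eq ?_) ?_
  · field_simp
  · unfold hatD aR aE
    rw [show (2 : ℝ) ^ 256 = 2 ^ 56 * 2 ^ 200 by rw [← pow_add]]
    generalize (2 : ℝ) ^ 200 = s at s200 ⊢
    split_ifs
    · field_simp
      ring
    · field_simp
      ring

/-! ## powers of x0 -/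

theorem X_err {x0 : ℝ} (hx : |x0 - (x0N : ℝ) / 10 ^ 65| ≤ 1 / 10 ^ 58) (n : ℕ) (hn : n ≤ 1201) :
    |(xN n : ℝ) / 2 ^ 56 - x0 ^ n| ≤ x0 ^ n * (n * (1.5 / 10 ^ 17)) := by
  have hx1 : 1 ≤ x0 := by
    have h1 : (1.03 : ℝ) ≤ (x0N : ℝ) / 10 ^ 65 := by
      unfold x0N
      norm_num
    have h2 := (abs_le.1 hx).1
    have h3 : (1 : ℝ) / 10 ^ 58 ≤ 0.01 := by norm_num
    linarith
  induction n with
  | zero =>
    have : xN 0 = 2 ^ 56 := by decide +kernel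
    rw [this]
    norm_num
  | succ n ih =>
    have h1 := ih (by omega)
    have h2 := near_spec (allB_spec chkX_ok n (by omega))
    simp only [Nat.cast_mul, Nat.cast_pow, Nat.cast_ofNat] at h2
    have h3 : |(xN (n + 1) : ℝ) / 2 ^ 56 - (x0N : ℝ) / 10 ^ 65 * ((xN n : ℝ) / 2 ^ 56)| ≤
        1 / 2 ^ 56 := by
      refine div_near' (s := 10 ^ 65 * 2 ^ 56) (by positivity) (h2.trans_eq ?_) ?_
      · field_simp
      · field_simp
    have hp : (1 : ℝ) ≤ x0 ^ n := one_le_pow₀ hx1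
    have hp' : (1 : ℝ) ≤ x0 ^ (n + 1) := one_le_pow₀ hx1
    have h4 : |((x0N : ℝ) / 10 ^ 65 - x0) * ((xN n : ℝ) / 2 ^ 56)| ≤ 1 / 10 ^ 58 * (2 * x0 ^ n) := by
      rw [abs_mul, abs_sub_comm]
      refine mul_le_mul hx ?_ (abs_nonneg _) (by positivity)
      have h5 := abs_le.1 h1
      have h6 : (n : ℝ) * (1.5 / 10 ^ 17) ≤ 1 := by
        have : (n : ℝ) ≤ 1201 := by exact_mod_cast (by omega : n ≤ 1201)
        have := mul_le_mul_of_nonneg_right this (by positivity : (0 : ℝ) ≤ 1.5 / 10 ^ 17)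
        refine this.trans ?_
        norm_num
      have h7 := mul_le_mul_of_nonneg_left h6 (by positivity : (0 : ℝ) ≤ x0 ^ n)
      rw [abs_of_nonneg (by positivity)]
      linarith
    have h5 : |x0 * ((xN n : ℝ) / 2 ^ 56 - x0 ^ n)| ≤ x0 * (x0 ^ n * (n * (1.5 / 10 ^ 17))) := by
      rw [abs_mul, abs_of_nonneg (by linarith : 0 ≤ x0)]
      exact mul_le_mul_of_nonneg_left h1 (by linarith)
    have e : (xN (n + 1) : ℝ) / 2 ^ 56 - x0 ^ (n + 1) =
        ((xN (n + 1) : ℝ) / 2 ^ 56 - (x0N : ℝ) / 10 ^ 65 * ((xN n : ℝ) / 2 ^ 56)) +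
        ((x0N : ℝ) / 10 ^ 65 - x0) * ((xN n : ℝ) / 2 ^ 56) +
        x0 * ((xN n : ℝ) / 2 ^ 56 - x0 ^ n) := by ring
    rw [e]
    refine (abs_add_le _ _).trans ((add_le_add (abs_add_le _ _) le_rfl).trans ?_)
    refine (add_le_add (add_le_add h3 h4) h5).trans ?_
    have h6 : x0 ^ n ≤ x0 ^ (n + 1) := pow_le_pow_right₀ hx1 (by omega)
    have h7 : (1 : ℝ) / 2 ^ 56 ≤ x0 ^ (n + 1) * (1.4 / 10 ^ 17) := by
      have h8 : (1 : ℝ) / 2 ^ 56 ≤ 1.4 / 10 ^ 17 := by norm_num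
      have := mul_le_mul_of_nonneg_right hp' (by positivity : (0 : ℝ) ≤ 1.4 / 10 ^ 17)
      linarith
    have h8 : (1 : ℝ) / 10 ^ 58 * (2 * x0 ^ n) ≤ x0 ^ (n + 1) * (1 / 10 ^ 19) := by
      have h9 : (1 : ℝ) / 10 ^ 58 * 2 ≤ 1 / 10 ^ 19 := by norm_num
      have := mul_le_mul_of_nonneg_right h9 (by positivity : (0 : ℝ) ≤ x0 ^ n)
      have := mul_le_mul_of_nonneg_left h6 (by positivity : (0 : ℝ) ≤ 1 / 10 ^ 19)
      linarith
    have h9 : x0 * (x0 ^ n * (n * (1.5 / 10 ^ 17))) = x0 ^ (n + 1) * (n * (1.5 / 10 ^ 17)) := by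
      rw [pow_succ]; ring
    rw [h9]
    push_cast
    have h10 : x0 ^ (n + 1) * (1.4 / 10 ^ 17) + x0 ^ (n + 1) * (1 / 10 ^ 19) +
        x0 ^ (n + 1) * (n * (1.5 / 10 ^ 17)) ≤ x0 ^ (n + 1) * (((n : ℝ) + 1) * (1.5 / 10 ^ 17)) := by
      have : (0 : ℝ) ≤ x0 ^ (n + 1) := by positivity
      nlinarith
    linarith

theorem pow_l {n : ℕ} (hn : n ≤ 1210) : (1.037 : ℝ) ^ n ≤ 1.3 * 10 ^ 19 := by
  have h0 : (1.037 : ℝ) ^ n ≤ 1.037 ^ 1210 := pow_le_pow_right₀ (by norm_num) hn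
  refine h0.trans ?_
  have h1 : (1.037 : ℝ) ^ 11 ≤ 1.4914 := by norm_num
  have h2 : (1.4914 : ℝ) ^ 10 ≤ 54.5 := by norm_num
  have h3 : (54.5 : ℝ) ^ 11 ≤ 1.3 * 10 ^ 19 := by norm_num
  calc (1.037 : ℝ) ^ 1210 = ((1.037 ^ 11) ^ 10) ^ 11 := by rw [← pow_mul, ← pow_mul]
    _ ≤ ((1.4914) ^ 10) ^ 11 :=
      pow_le_pow_left₀ (by positivity) (pow_le_pow_left₀ (by positivity) h1 _) _
    _ ≤ 54.5 ^ 11 := pow_le_pow_left₀ (by positivity) h2 _
    _ ≤ _ := h3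

theorem pow_x {x : ℝ} (hx0 : 1 ≤ x) (hx : x ≤ 1.0381) {n : ℕ} (hn : n ≤ 1200) :
    x ^ n ≤ 3.3 * 10 ^ 19 := by
  have h0 : x ^ n ≤ x ^ 1200 := pow_le_pow_right₀ hx0 hn
  refine h0.trans ?_
  have hx' : x ^ 1200 ≤ (1.0381 : ℝ) ^ 1200 := pow_le_pow_left₀ (by linarith) hx _
  refine hx'.trans ?_
  have h1 : (1.0381 : ℝ) ^ 12 ≤ 1.5667 := by norm_num
  have h2 : (1.5667 : ℝ) ^ 10 ≤ 89.2 := by norm_num
  have h3 : (89.2 : ℝ) ^ 10 ≤ 3.3 * 10 ^ 19 := by norm_num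
  calc (1.0381 : ℝ) ^ 1200 = ((1.0381 ^ 12) ^ 10) ^ 10 := by rw [← pow_mul, ← pow_mul]
    _ ≤ ((1.5667) ^ 10) ^ 10 :=
      pow_le_pow_left₀ (by positivity) (pow_le_pow_left₀ (by positivity) h1 _) _
    _ ≤ 89.2 ^ 10 := pow_le_pow_left₀ (by positivity) h2 _
    _ ≤ _ := h3

theorem x0_facts {x0 : ℝ} (hx : |x0 - (x0N : ℝ) / 10 ^ 65| ≤ 1 / 10 ^ 58) :
    1.038 ≤ x0 ∧ x0 ≤ 1.0381 := by
  have h1 : (1.03805 : ℝ) ≤ (x0N : ℝ) / 10 ^ 65 := by
    unfold x0N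
    norm_num
  have h1' : (x0N : ℝ) / 10 ^ 65 ≤ 1.03808 := by
    unfold x0N
    norm_num
  have h2 := abs_le.1 hx
  have h3 : (1 : ℝ) / 10 ^ 58 ≤ 0.00001 := by norm_num
  constructor <;> linarith

theorem tab : TabStmt := by
  intro T x0 z th hlo hhi hR d l hd1 hd2 hl
  obtain ⟨hO, herr⟩ := main_err hlo hhi hR
  obtain ⟨hx1, hx2⟩ := x0_facts hR.x0_enc
  have hD : Gd T x0 z th d l = (brest T x0 z th (l + 1)).R - (brest T x0 z th (l + d + 1)).R
      - (57 - (d : ℝ)) * (brest T x0 z th l).E + (56 - (d : ℝ)) * (brest T x0 z th (l + 1)).E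
      + 57 * (brest T x0 z th (l + d)).E - 56 * (brest T x0 z th (l + d + 1)).E
      + (if l = 0 then (56 - (d : ℝ)) / 56 else 0) := by
    unfold Gd
    have h1 := hO.diff (d - 1) l (by omega)
    rw [show 55 - (d - 1) = 56 - d by omega, show l + (d - 1) + 2 = l + d + 1 by omega,
      show l + (d - 1) + 1 = l + d by omega, Nat.cast_sub hd1] at h1
    rw [h1]
    push_cast
    ring
  have hη : |Gd T x0 z th d l - hatD d l| ≤ 3 / 10 ^ 32 := by
    have e : ∀ n, n ≤ 1210 → |aE n - (brest T x0 z th n).E| ≤ 1.3 / 10 ^ 34 := by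
      intro n hn
      refine (herr n hn).1.trans ?_
      refine (mul_le_mul_of_nonneg_left (pow_l hn) (by unfold Ce; positivity)).trans ?_
      unfold Ce
      norm_num
    have r : ∀ n, n ≤ 1210 → |aR n - (brest T x0 z th n).R| ≤ 1.3 / 10 ^ 34 := by
      intro n hn
      refine (herr n hn).2.trans ?_
      refine (mul_le_mul_of_nonneg_left (pow_l hn) (by unfold Ce; positivity)).trans ?_
      unfold Ce
      norm_num
    have hd : (1 : ℝ) ≤ d := by exact_mod_cast hd1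
    have hd' : (d : ℝ) ≤ 10 := by exact_mod_cast hd2
    have m1 := abs_le.1 (r (l + 1) (by omega))
    have m2 := abs_le.1 (r (l + d + 1) (by omega))
    have m3 := abs_le.1 (e l (by omega))
    have m4 := abs_le.1 (e (l + 1) (by omega))
    have m5 := abs_le.1 (e (l + d) (by omega))
    have m6 := abs_le.1 (e (l + d + 1) (by omega))
    have k1 : |(57 - (d : ℝ)) * (aE l - (brest T x0 z th l).E)| ≤ 57 * (1.3 / 10 ^ 34) := by
      rw [abs_mul, abs_of_nonneg (by linarith : (0 : ℝ) ≤ 57 - d)]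
      exact mul_le_mul (by linarith) (e l (by omega)) (abs_nonneg _) (by norm_num)
    have k2 : |(56 - (d : ℝ)) * (aE (l + 1) - (brest T x0 z th (l + 1)).E)| ≤
        56 * (1.3 / 10 ^ 34) := by
      rw [abs_mul, abs_of_nonneg (by linarith : (0 : ℝ) ≤ 56 - d)]
      exact mul_le_mul (by linarith) (e (l + 1) (by omega)) (abs_nonneg _) (by norm_num)
    have k1' := abs_le.1 k1
    have k2' := abs_le.1 k2
    rw [hD, abs_le]
    unfold hatD
    have k3 : (57 : ℝ) * (1.3 / 10 ^ 34) + 56 * (1.3 / 10 ^ 34) + 1.3 / 10 ^ 34 + 1.3 / 10 ^ 34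
      + 57 * (1.3 / 10 ^ 34) + 56 * (1.3 / 10 ^ 34) ≤ 3 / 10 ^ 32 := by norm_num
    constructor <;> linarith
  have hc := cond_spec d l hd1 hd2 hl
  have hX := X_err hR.x0_enc (l + 1) (by omega)
  have hA := pow_x (by linarith) hx2 (n := l + 1) (by omega)
  have hA0 : (0 : ℝ) < x0 ^ (l + 1) := by positivity
  set A : ℝ := x0 ^ (l + 1) with hAd
  set X : ℝ := (xN (l + 1) : ℝ) / 2 ^ 56 with hXd
  set D : ℝ := hatD d l with hDd
  set G : ℝ := (gT d l : ℝ) / 10 ^ 10 with hGd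
  have hρ : |X - A| ≤ A * (2 / 10 ^ 14) := by
    refine hX.trans (mul_le_mul_of_nonneg_left ?_ hA0.le)
    have h1 : (((l + 1 : ℕ) : ℝ)) ≤ 1201 := by exact_mod_cast (by omega : l + 1 ≤ 1201)
    have := mul_le_mul_of_nonneg_right h1 (by positivity : (0 : ℝ) ≤ 1.5 / 10 ^ 17)
    refine this.trans ?_
    norm_num
  have hG : |G| ≤ 56 := by
    have h1 : (gN d >>> (40 * l)) % 2 ^ 40 < 2 ^ 40 := Nat.mod_lt _ (by positivity)
    have h2 : (((gN d >>> (40 * l)) % 2 ^ 40 : ℕ) : ℝ) ≤ 2 ^ 40 := by exact_mod_cast h1.le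
    have h3 : (0 : ℝ) ≤ (((gN d >>> (40 * l)) % 2 ^ 40 : ℕ) : ℝ) := Nat.cast_nonneg _
    rw [hGd, gT_cast, abs_le]
    constructor
    · rw [le_div_iff₀ (by positivity)]
      norm_num
      norm_num at h3
      linarith
    · rw [div_le_iff₀ (by positivity)]
      norm_num
      norm_num at h2
      linarith
  have hAD : A * |D| ≤ 58 := by
    have h1 : |X * D| ≤ 57 := by
      have : X * D = (X * D - G) + G := by ring
      rw [this]
      refine (abs_add_le _ _).trans ((add_le_add hc hG).trans ?_)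
      norm_num
    rw [abs_mul] at h1
    have h2 : A ≤ |X| + A * (2 / 10 ^ 14) := by
      have h3 := abs_le.1 hρ
      have h4 := le_abs_self X
      linarith
    have h3 : A * (1 - 2 / 10 ^ 14) ≤ |X| := by linarith
    have h4 := mul_le_mul_of_nonneg_right h3 (abs_nonneg D)
    have h5 : (0.99 : ℝ) ≤ 1 - 2 / 10 ^ 14 := by norm_num
    have h6 := mul_le_mul_of_nonneg_left h5 (mul_nonneg hA0.le (abs_nonneg D))
    nlinarith
  have e : A * Gd T x0 z th d l - G = A * (Gd T x0 z th d l - D) - (X - A) * D + (X * D - G) := by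
    ring
  rw [e]
  have t1 : |A * (Gd T x0 z th d l - D)| ≤ 3.3 * 10 ^ 19 * (3 / 10 ^ 32) := by
    rw [abs_mul, abs_of_pos hA0]
    exact mul_le_mul hA hη (abs_nonneg _) (by norm_num)
  have t2 : |(X - A) * D| ≤ 58 * (2 / 10 ^ 14) := by
    rw [abs_mul]
    have h1 := mul_le_mul_of_nonneg_right hρ (abs_nonneg D)
    have h2 := mul_le_mul_of_nonneg_right hAD (by positivity : (0 : ℝ) ≤ 2 / 10 ^ 14)
    linarith
  refine (abs_add_le _ _).trans ((add_le_add (abs_sub _ _) hc).trans ?_)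
  refine (add_le_add (add_le_add t1 t2) le_rfl).trans ?_
  norm_num

end SA.H38
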