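import Pool.Agent.Helper38_SA.TabR

/-! Propagation of errors along the orbit. -/

namespace SA.H38

open Finset

noncomputable def aE (n : ℕ) : ℝ := ((eN n : ℝ) - 2 ^ 200) / 2 ^ 200
noncomputable def aR (n : ℕ) : ℝ := ((rN n : ℝ) - 2 ^ 200) / 2 ^ 200
noncomputable def aF (n : ℕ) : ℝ := ((fN n : ℝ) - 2 ^ 200) / 2 ^ 200

theorem near_spec {a b c : ℕ} (h : near a b c = true) : |(a : ℝ) - b| ≤ c := by
  unfold near at h
  rw [Bool.and_eq_true] at h
  have h1 : (a : ℝ) ≤ b + c := by exact_mod_cast Nat.le_of_ble_eq_true h.1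
  have h2 : (b : ℝ) ≤ a + c := by exact_mod_cast Nat.le_of_ble_eq_true h.2
  rw [abs_le]
  constructor <;> linarith

theorem aF55 : aF 55 = 0 := by
  have : fN 55 = 2 ^ 200 := by decide +kernel
  unfold aF
  rw [this]
  norm_num

theorem chk0_ok : near (56 * eN 1 + rN 1) (56 * eN 0 + fN 0) 56 = true := by decide +kernel

theorem div_near {x y c : ℝ} (h : |x| ≤ c) (hy : y = x / 2 ^ 200) : |y| ≤ c / 2 ^ 200 := by
  rw [hy, abs_div, abs_of_pos (by positivity : (0 : ℝ) < 2 ^ 200)]
  exact div_le_div_of_nonneg_right h (by positivity)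

theorem resA (n : ℕ) (hn : n < 1210) :
    |((Tm : ℝ) / 2 ^ 200) * (aR n - aR (n + 1)) - aE n| ≤ ((Tm : ℝ) / 2 ^ 200) / 2 ^ 200 := by
  have h1 := near_spec (allB_spec chkA_ok n hn)
  simp only [Nat.cast_add, Nat.cast_mul, Nat.cast_pow, Nat.cast_ofNat] at h1
  have h3 : (2 : ℝ) ^ 400 = 2 ^ 200 * 2 ^ 200 := by rw [← pow_add]
  rw [h3] at h1
  have h2 := div_near (y := ((Tm : ℝ) * rN n + 2 ^ 200 * 2 ^ 200 -
    (Tm * rN (n + 1) + 2 ^ 200 * eN n)) / 2 ^ 200) h1 rfl
  rw [div_div]
  refine (div_near h2 ?_).trans_eq (by rw [div_div])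
  unfold aE aR
  generalize (2 : ℝ) ^ 200 = s at *
  by_cases hs : s = 0
  · simp [hs]
  · field_simp
    ring

theorem resB (n : ℕ) (hn : n < 1154) :
    |56 * aE (n + 57) - 57 * aE (n + 56) + aE n + aR (n + 57) - aR (n + 1)| ≤ 56 / 2 ^ 200 := by
  have h1 := near_spec (allB_spec chkB_ok n hn)
  push_cast at h1
  refine div_near h1 ?_
  unfold aE aR
  ring

theorem resC (n : ℕ) (hn : n < 55) :
    |56 * aE (n + 2) - 57 * aE (n + 1) + aE 0 + aR (n + 2) - (aF (n + 1) - aF n)| ≤ 56 / 2 ^ 200 := by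
  have h1 := near_spec (allB_spec chkC_ok n hn)
  push_cast at h1
  refine div_near h1 ?_
  unfold aE aR aF
  ring

theorem res0 : |56 * aE 1 - 56 * aE 0 + aR 1 - aF 0| ≤ 56 / 2 ^ 200 := by
  have h1 := near_spec chk0_ok
  push_cast at h1
  refine div_near h1 ?_
  unfold aE aR aF
  ring

theorem res (n : ℕ) (hn : n < 1210) :
    |56 * aE (n + 1) - wS aE aR aF n| ≤ 56 * ((n : ℝ) + 1) / 2 ^ 200 := by
  induction n with
  | zero =>
    rw [wS_zero]
    have := res0
    rw [show 56 * aE (0 + 1) - (aF 0 - aR 1 + 56 * aE 0) = 56 * aE 1 - 56 * aE 0 + aR 1 - aF 0 by ring]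
    simpa using this
  | succ n ih =>
    have h1 := ih (by omega)
    have h4 : 56 * (((n + 1 : ℕ) : ℝ) + 1) / 2 ^ 200 = 56 * ((n : ℝ) + 1) / 2 ^ 200 + 56 / 2 ^ 200 := by
      push_cast; ring
    rw [h4]
    by_cases h : n + 1 ≤ 55
    · have h2 := resC n (by omega)
      rw [wS_lo _ _ _ _ h]
      rw [show n + 1 + 1 = n + 2 by omega]
      have h3 : 56 * aE (n + 2) - (wS aE aR aF n + (aF (n + 1) - aF n) - aR (n + 2) + aE (n + 1) - aE 0)
        = (56 * aE (n + 1) - wS aE aR aF n) +
          (56 * aE (n + 2) - 57 * aE (n + 1) + aE 0 + aR (n + 2) - (aF (n + 1) - aF n)) := by ring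
      rw [h3]
      exact (abs_add_le _ _).trans (add_le_add h1 h2)
    · obtain ⟨m, rfl⟩ : ∃ m, n = m + 55 := ⟨n - 55, by omega⟩
      have h2 := resB m (by omega)
      rw [show m + 55 + 1 = m + 56 by omega] at h1 ⊢
      rw [wS_hi _ _ _ aF55, show m + 56 + 1 = m + 57 by omega]
      have h3 : 56 * aE (m + 57) - (wS aE aR aF (m + 55) + aE (m + 56) - aE m - aR (m + 57) + aR (m + 1))
        = (56 * aE (m + 56) - wS aE aR aF (m + 55)) +
          (56 * aE (m + 57) - 57 * aE (m + 56) + aE m + aR (m + 57) - aR (m + 1)) := by ring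
      rw [h3]
      exact (abs_add_le _ _).trans (add_le_add h1 h2)

theorem aR_le (n : ℕ) : |aR n| ≤ 16 := by
  have h : rN n < 2 ^ 204 := Nat.mod_lt _ (by positivity)
  have h1 : (rN n : ℝ) ≤ 2 ^ 204 := by exact_mod_cast h.le
  have h2 : (0 : ℝ) ≤ rN n := Nat.cast_nonneg _
  unfold aR
  rw [abs_le]
  constructor
  · rw [le_div_iff₀ (by positivity)]
    norm_num
    norm_num at h1
    linarith
  · rw [div_le_iff₀ (by positivity)]
    norm_num
    norm_num at h1
    linarith

/-- the size of the initial errors -/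
noncomputable def Ce : ℝ := 1 / 10 ^ 53

theorem T_facts {T : ℝ} (hlo : Tlo ≤ T) (hhi : T ≤ Thi) :
    36.9 ≤ T ∧ T ≤ 37 ∧ |T - (Tm : ℝ) / 2 ^ 200| ≤ 1 / 2 ^ 200 := by
  unfold Tlo at hlo
  unfold Thi at hhi
  have h1 : (36.9 : ℝ) ≤ (Tm : ℝ) / 2 ^ 200 := by
    unfold Tm
    norm_num
  have h2 : ((Tm : ℝ) + 1) / 2 ^ 200 ≤ 37 := by
    unfold Tm
    norm_num
  refine ⟨h1.trans hlo, hhi.trans h2, ?_⟩
  rw [abs_le]
  constructor
  · have : (0 : ℝ) ≤ 1 / 2 ^ 200 := by positivity
    linarith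
  · rw [add_div] at hhi
    linarith

theorem err {T : ℝ} {b : ℕ → BV} (h : Orb T b) (hlo : Tlo ≤ T) (hhi : T ≤ Thi)
    (hF : ∀ n, n ≤ 55 → |aF n - (b 0).r (55 - n)| ≤ Ce / 4)
    (hE : |aE 0 - (b 0).E| ≤ Ce) (hR : |aR 0 - (b 0).R| ≤ Ce) :
    ∀ n, n ≤ 1210 → |aE n - (b n).E| ≤ Ce * 1.037 ^ n ∧ |aR n - (b n).R| ≤ Ce * 1.037 ^ n := by
  obtain ⟨hT1, hT2, hT3⟩ := T_facts hlo hhi
  have hC : (0 : ℝ) ≤ Ce := by unfold Ce; positivity
  intro n
  induction n using Nat.strong_induction_on with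
  | _ n ih =>
    intro hn
    cases n with
    | zero => simpa using ⟨hE, hR⟩
    | succ n =>
      have hp : (1 : ℝ) ≤ 1.037 ^ n := one_le_pow₀ (by norm_num)
      have hβ : |aR (n + 1) - (b (n + 1)).R| ≤ Ce * 1.037 ^ (n + 1) := by
        obtain ⟨h1, h2⟩ := ih n (by omega) (by omega)
        have h3 := resA n (by omega)
        have h4 := h.R n
        have hT0 : T ≠ 0 := by linarith
        have hTpos : 0 < T := by linarith
        set t : ℝ := (Tm : ℝ) / 2 ^ 200 with ht
        have h5 : aR (n + 1) - (b (n + 1)).R =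
            (aR n - (b n).R) - (aE n - (b n).E) / T
            - ((t * (aR n - aR (n + 1)) - aE n) / T + (aR n - aR (n + 1)) * (T - t) / T) := by
          rw [h4]
          field_simp
          ring
        have ht37 : t ≤ 38 := by
          have := abs_le.1 hT3
          have h6 : (1 : ℝ) / 2 ^ 200 ≤ 1 := by norm_num
          linarith
        have ht0 : 0 ≤ t := by rw [ht]; positivity
        have h6 : |(t * (aR n - aR (n + 1)) - aE n) / T| ≤ 2 / 2 ^ 200 := by
          rw [abs_div, abs_of_pos hTpos, div_le_iff₀ hTpos]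
          refine h3.trans ?_
          rw [div_mul_eq_mul_div]
          exact div_le_div_of_nonneg_right (by linarith) (by positivity)
        have h7 : |(aR n - aR (n + 1)) * (T - t) / T| ≤ 1 / 2 ^ 200 := by
          rw [abs_div, abs_of_pos hTpos, div_le_iff₀ hTpos, abs_mul]
          have h8 : |aR n - aR (n + 1)| ≤ 32 := by
            refine (abs_sub _ _).trans ?_
            have := aR_le n
            have := aR_le (n + 1)
            linarith
          calc |aR n - aR (n + 1)| * |T - t| ≤ 32 * (1 / 2 ^ 200) :=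
                mul_le_mul h8 hT3 (abs_nonneg _) (by norm_num)
            _ ≤ 1 / 2 ^ 200 * T := by
              rw [mul_comm]
              exact mul_le_mul_of_nonneg_left (by linarith) (by positivity)
        have h8 : |(aE n - (b n).E) / T| ≤ Ce * 1.037 ^ n / 36.9 := by
          rw [abs_div, abs_of_pos hTpos]
          exact div_le_div₀ (mul_nonneg hC (by positivity)) h1 (by norm_num) hT1
        rw [h5]
        have h9 := abs_le.1 h2
        have h10 := abs_le.1 h6
        have h11 := abs_le.1 h7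
        have h12 := abs_le.1 h8
        have h13 : (3 : ℝ) / 2 ^ 200 ≤ Ce * 1.037 ^ n * 0.005 := by
          have : (3 : ℝ) / 2 ^ 200 ≤ Ce * 1 * 0.005 := by
            unfold Ce
            norm_num
          refine this.trans ?_
          have := mul_le_mul_of_nonneg_left hp hC
          linarith
        have h14 : (3 : ℝ) / 2 ^ 200 = 2 / 2 ^ 200 + 1 / 2 ^ 200 := by ring
        have h15 : Ce * 1.037 ^ n / 36.9 ≤ Ce * 1.037 ^ n * 0.03 := by
          rw [div_le_iff₀ (by norm_num)]
          have : (0 : ℝ) ≤ Ce * 1.037 ^ n := mul_nonneg hC (by positivity)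
          linarith
        rw [pow_succ, abs_le]
        constructor <;> linarith
      refine ⟨?_, hβ⟩
      have h1 := res n (by omega)
      have h2 := h.wS n
      have h3 := wS_sub aE aR aF (fun n => (b n).E) (fun n => (b n).R) (fun n => (b 0).r (55 - n)) n
      have h4 := wS_bound (α := fun i => aE i - (b i).E) (β := fun i => aR i - (b i).R)
        (φ := fun i => aF i - (b 0).r (55 - i)) hC n
        (fun i hi => (ih i (by omega) (by omega)).1)
        (fun i hi => by
          rcases Nat.lt_or_ge i (n + 1) with h5 | h5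
          · exact (ih i h5 (by omega)).2
          · obtain rfl : i = n + 1 := by omega
            exact hβ)
        hF
      rw [h3] at h4
      have h5 : 56 * ((n : ℝ) + 1) / 2 ^ 200 ≤ Ce / 2 := by
        have h6 : (n : ℝ) + 1 ≤ 1210 := by exact_mod_cast hn
        have h7 : 56 * ((n : ℝ) + 1) / 2 ^ 200 ≤ 56 * 1210 / 2 ^ 200 :=
          div_le_div_of_nonneg_right (by linarith) (by positivity)
        refine h7.trans ?_
        unfold Ce
        norm_num
      have h6 := abs_le.1 h1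
      have h7 := abs_le.1 h4
      have h8 : 56 * |aE (n + 1) - (b (n + 1)).E| ≤ 56 * (Ce * 1.037 ^ (n + 1)) := by
        rw [← abs_of_pos (by norm_num : (0 : ℝ) < 56), ← abs_mul,
          abs_of_pos (by norm_num : (0 : ℝ) < 56), abs_le]
        constructor <;> linarith
      linarith

end SA.H38
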