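import Pool.Agent.Helper38_SA.TabM
import Pool.Agent.Helper38_SA.TabP

/-! The start of the orbit: enclosures of the modes. -/

namespace SA.H38

open Finset

theorem nearZ_spec {a b c : ℤ} (h : nearZ a b c = true) : |(a : ℝ) - b| ≤ c := by
  unfold nearZ at h
  rw [Bool.and_eq_true, decide_eq_true_eq, decide_eq_true_eq] at h
  have h1 : (a : ℝ) ≤ b + c := by exact_mod_cast h.1
  have h2 : (b : ℝ) ≤ a + c := by exact_mod_cast h.2
  rw [abs_le]
  constructor <;> linarith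

/-- complex number from two integers at the scale s -/
noncomputable def cs (s : ℝ) (a b : ℤ) : ℂ := ⟨(a : ℝ) / s, (b : ℝ) / s⟩

theorem norm_le_of {w : ℂ} {c : ℝ} (h1 : |w.re| ≤ c) (h2 : |w.im| ≤ c) : ‖w‖ ≤ 2 * c :=
  (Complex.norm_le_abs_re_add_abs_im w).trans (by linarith)

theorem div_near' {x y c s : ℝ} (hs : 0 < s) (h : |x| ≤ c * s) (hy : y = x / s) : |y| ≤ c := by
  rw [hy, abs_div, abs_of_pos hs, div_le_iff₀ hs]
  exact h

theorem cs_norm_le {s k : ℝ} (hs : 0 < s) (hk : 0 ≤ k) {a b : ℤ}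
    (h : (a : ℝ) * a + b * b ≤ (k * s) * (k * s)) : ‖cs s a b‖ ≤ k := by
  rw [← pow_le_pow_iff_left₀ (norm_nonneg _) hk two_ne_zero, Complex.sq_norm, Complex.normSq_apply]
  simp only [cs]
  rw [div_mul_div_comm, div_mul_div_comm, ← add_div, div_le_iff₀ (by positivity)]
  exact h.trans_eq (by ring)

structure MFacts (m : MInt) : Prop where
  v : ‖cs (2 ^ 200) m.vr m.vi * (cs (10 ^ 65) m.xr m.xi - 1) - 1‖ ≤ 1 / 10 ^ 58
  c : ‖cs (2 ^ 200) m.cr m.ci - (cs (2 ^ 200) m.vr m.vi + cs (2 ^ 200) m.vr m.vi ^ 2)‖ ≤ 1 / 10 ^ 58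
  vle : ‖cs (2 ^ 200) m.vr m.vi‖ ≤ 37
  xle : ‖cs (10 ^ 65) m.xr m.xi‖ ≤ 1.0382
  g0 : cs (2 ^ 200) (m.gr 0) (m.gi 0) = 0
  g : ∀ r, r < 55 → ‖cs (2 ^ 200) (m.gr (r + 1)) (m.gi (r + 1)) - (cs (2 ^ 200) m.cr m.ci
    - ((r : ℂ) + 1) * ((Tm : ℝ) / 2 ^ 200 : ℝ) + cs (10 ^ 65) m.xr m.xi * cs (2 ^ 200) (m.gr r) (m.gi r))‖
      ≤ 1 / 10 ^ 58
  gle : ∀ r, r < 55 → ‖cs (2 ^ 200) (m.gr r) (m.gi r)‖ ≤ 2 ^ 16

theorem small : (2 : ℝ) * (32 / 2 ^ 200) ≤ 1 / 10 ^ 58 := by norm_num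

theorem mfacts (m : MInt) (hV : m.okV = true) (hG : allB m.okG 55 = true) : MFacts m := by
  unfold MInt.okV at hV
  simp only [Bool.and_eq_true, decide_eq_true_eq] at hV
  obtain ⟨⟨⟨⟨⟨⟨⟨h1, h2⟩, h3⟩, h4⟩, h5⟩, h6⟩, h7⟩, h8⟩ := hV
  have h1 := nearZ_spec h1
  have h2 := nearZ_spec h2
  have h3 := nearZ_spec h3
  have h4 := nearZ_spec h4
  simp only [Int.cast_add, Int.cast_sub, Int.cast_mul, Int.cast_pow, Int.cast_ofNat,
    Int.cast_zero] at h1 h2 h3 h4
  have hs : (0 : ℝ) < 2 ^ 200 := by positivity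
  have ht : (0 : ℝ) < 10 ^ 65 := by positivity
  constructor
  · refine (norm_le_of (c := 32 / 2 ^ 200) ?_ ?_).trans small
    · refine div_near' (s := 2 ^ 200 * 10 ^ 65) (by positivity) (h1.trans_eq ?_) ?_
      · field_simp
      · simp only [cs, Complex.sub_re, Complex.mul_re, Complex.sub_im, Complex.one_re,
          Complex.one_im]
        field_simp
        ring
    · refine div_near' (s := 2 ^ 200 * 10 ^ 65) (by positivity) (h2.trans_eq ?_) ?_
      · field_simp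
      · simp only [cs, Complex.sub_re, Complex.mul_im, Complex.sub_im, Complex.one_re,
          Complex.one_im]
        field_simp
        ring
  · refine (norm_le_of (c := 32 / 2 ^ 200) ?_ ?_).trans small
    · refine div_near' (s := 2 ^ 200 * 2 ^ 200) (by positivity) (h3.trans_eq ?_) ?_
      · field_simp
      · simp only [cs, Complex.sub_re, Complex.add_re, pow_two (_ : ℂ), Complex.mul_re]
        field_simp
    · refine div_near' (s := 2 ^ 200 * 2 ^ 200) (by positivity) (h4.trans_eq ?_) ?_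
      · field_simp
      · simp only [cs, Complex.sub_im, Complex.add_im, pow_two (_ : ℂ), Complex.mul_im]
        generalize (2 : ℝ) ^ 200 = s at hs ⊢
        field_simp
        ring
  · refine cs_norm_le hs (by norm_num) ?_
    have : ((m.vr * m.vr + m.vi * m.vi : ℤ) : ℝ) ≤ ((37 * 2 ^ 200) * (37 * 2 ^ 200) : ℤ) := by
      exact_mod_cast h5
    simpa only [Int.cast_add, Int.cast_mul, Int.cast_pow, Int.cast_ofNat] using this
  · refine cs_norm_le ht (by norm_num) ?_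
    have : ((m.xr * m.xr + m.xi * m.xi : ℤ) : ℝ) ≤
        ((10382 * 10 ^ 61) * (10382 * 10 ^ 61) : ℤ) := by exact_mod_cast h6
    simp only [Int.cast_add, Int.cast_mul, Int.cast_pow, Int.cast_ofNat] at this
    refine this.trans_eq ?_
    norm_num
  · simp [cs, h7, h8]; rfl
  · intro r hr
    have hg := allB_spec hG r hr
    unfold MInt.okG at hg
    simp only [Bool.and_eq_true] at hg
    obtain ⟨⟨⟨g1, g2⟩, g3⟩, g4⟩ := hg
    have g1 := nearZ_spec g1
    have g2 := nearZ_spec g2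
    simp only [Int.cast_add, Int.cast_sub, Int.cast_mul, Int.cast_pow, Int.cast_ofNat,
      Int.cast_natCast, Int.cast_one] at g1 g2
    refine (norm_le_of (c := 32 / 2 ^ 200) ?_ ?_).trans small
    · refine div_near' (s := 2 ^ 200 * 10 ^ 65) (by positivity) (g1.trans_eq ?_) ?_
      · field_simp
      · simp only [cs, Complex.sub_re, Complex.add_re, Complex.mul_re, Complex.ofReal_re,
          Complex.ofReal_im, Complex.one_re, Complex.one_im, Complex.natCast_re, Complex.natCast_im,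
          Complex.add_im]
        field_simp
        ring
    · refine div_near' (s := 2 ^ 200 * 10 ^ 65) (by positivity) (g2.trans_eq ?_) ?_
      · field_simp
      · simp only [cs, Complex.sub_im, Complex.add_im, Complex.mul_im, Complex.ofReal_re,
          Complex.ofReal_im, Complex.one_re, Complex.one_im, Complex.natCast_re, Complex.natCast_im,
          Complex.add_re]
        field_simp
        ring
  · intro r hr
    have hg := allB_spec hG r hr
    unfold MInt.okG at hg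
    simp only [Bool.and_eq_true] at hg
    obtain ⟨⟨⟨g1, g2⟩, g3⟩, g4⟩ := hg
    have g3 := nearZ_spec g3
    have g4 := nearZ_spec g4
    simp only [Int.cast_zero, sub_zero, Int.cast_pow, Int.cast_ofNat] at g3 g4
    refine (norm_le_of (c := 2 ^ 15) ?_ ?_).trans (by norm_num)
    · refine div_near' (s := 2 ^ 200) (by positivity) (g3.trans_eq (by norm_num)) rfl
    · refine div_near' (s := 2 ^ 200) (by positivity) (g4.trans_eq (by norm_num)) rfl

/-- errors of 1 / (x - 1), x / (x - 1)^2 and gam -/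
theorem mode_err {m : MInt} (h : MFacts m) {T : ℝ} (hT : |T - (Tm : ℝ) / 2 ^ 200| ≤ 1 / 2 ^ 200)
    {x : ℂ} (hx : ‖x - cs (10 ^ 65) m.xr m.xi‖ ≤ 1 / 10 ^ 58) :
    x - 1 ≠ 0 ∧ ‖(x - 1)⁻¹ - cs (2 ^ 200) m.vr m.vi‖ ≤ 1.5 / 10 ^ 55 ∧
    ‖(x - 1)⁻¹‖ ≤ 38 ∧
    ‖x / (x - 1) ^ 2 - cs (2 ^ 200) m.cr m.ci‖ ≤ 1.2 / 10 ^ 53 ∧
    ∀ r, r ≤ 55 → ‖gam (T : ℂ) x r - cs (2 ^ 200) (m.gr r) (m.gi r)‖ ≤ 4 / 10 ^ 51 := by
  obtain ⟨hv, hc, hvle, hxle, hg0, hg, hgle⟩ := h
  generalize cs (2 ^ 200) m.vr m.vi = v at *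
  generalize cs (2 ^ 200) m.cr m.ci = c at *
  generalize cs (10 ^ 65) m.xr m.xi = y at *
  have h1 : ‖v * (x - 1) - 1‖ ≤ 38 / 10 ^ 58 := by
    have e : v * (x - 1) - 1 = (v * (y - 1) - 1) + v * (x - y) := by ring
    rw [e]
    refine (norm_add_le _ _).trans ?_
    rw [norm_mul]
    have := mul_le_mul hvle hx (norm_nonneg _) (by norm_num)
    refine (add_le_add hv this).trans ?_
    norm_num
  have hd : x - 1 ≠ 0 := by
    intro h0
    rw [h0] at h1
    norm_num at h1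
  have hw : ‖(x - 1)⁻¹‖ ≤ 38 := by
    have e : (x - 1)⁻¹ = v - (x - 1)⁻¹ * (v * (x - 1) - 1) := by
      field_simp
      ring
    have h2 : ‖(x - 1)⁻¹‖ ≤ 37 + ‖(x - 1)⁻¹‖ * (38 / 10 ^ 58) := by
      calc ‖(x - 1)⁻¹‖ = ‖v - (x - 1)⁻¹ * (v * (x - 1) - 1)‖ := by rw [← e]
        _ ≤ ‖v‖ + ‖(x - 1)⁻¹ * (v * (x - 1) - 1)‖ := norm_sub_le _ _
        _ ≤ 37 + ‖(x - 1)⁻¹‖ * (38 / 10 ^ 58) := by
          rw [norm_mul]
          exact add_le_add hvle (mul_le_mul_of_nonneg_left h1 (norm_nonneg _))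
    have h38 : (38 : ℝ) / 10 ^ 58 ≤ 1 / 1000 := by norm_num
    have := mul_le_mul_of_nonneg_left h38 (norm_nonneg (x - 1)⁻¹)
    linarith
  have hvw : ‖(x - 1)⁻¹ - v‖ ≤ 1.5 / 10 ^ 55 := by
    have e : (x - 1)⁻¹ - v = -((x - 1)⁻¹ * (v * (x - 1) - 1)) := by
      field_simp
      ring
    rw [e, norm_neg, norm_mul]
    refine (mul_le_mul hw h1 (norm_nonneg _) (by norm_num)).trans ?_
    norm_num
  have hc' : ‖x / (x - 1) ^ 2 - c‖ ≤ 1.2 / 10 ^ 53 := by
    have e : x / (x - 1) ^ 2 - c =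
        ((x - 1)⁻¹ - v) * (1 + (x - 1)⁻¹ + v) - (c - (v + v ^ 2)) := by
      have e1 : x / (x - 1) ^ 2 = (x - 1)⁻¹ + (x - 1)⁻¹ ^ 2 := by
        field_simp
        ring
      rw [e1]
      ring
    rw [e]
    refine (norm_sub_le _ _).trans ?_
    rw [norm_mul]
    have h3 : ‖1 + (x - 1)⁻¹ + v‖ ≤ 76 := by
      refine (norm_add_le _ _).trans ?_
      refine (add_le_add (norm_add_le _ _) le_rfl).trans ?_
      rw [norm_one]
      linarith
    refine (add_le_add (mul_le_mul hvw h3 (norm_nonneg _) (by norm_num)) hc).trans ?_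
    norm_num
  refine ⟨hd, hvw, hw, hc', ?_⟩
  have hx' : ‖x‖ ≤ 1.04 := by
    have e : x = y + (x - y) := by ring
    rw [e]
    refine (norm_add_le _ _).trans ((add_le_add hxle hx).trans ?_)
    norm_num
  have key : ∀ r, r ≤ 55 → ‖gam (T : ℂ) x r - cs (2 ^ 200) (m.gr r) (m.gi r)‖ ≤
      5 / 10 ^ 52 * (1.04 ^ r - 1) := by
    intro r
    induction r with
    | zero =>
      intro _
      rw [hg0]
      simp [gam]
    | succ r ih =>
      intro hr
      have h2 := ih (by omega)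
      have h3 := hg r (by omega)
      have h4 := hgle r (by omega)
      generalize cs (2 ^ 200) (m.gr r) (m.gi r) = g at *
      generalize cs (2 ^ 200) (m.gr (r + 1)) (m.gi (r + 1)) = g' at *
      have e : gam (T : ℂ) x (r + 1) - g' = (x / (x - 1) ^ 2 - c)
          - ((r : ℂ) + 1) * (((T - (Tm : ℝ) / 2 ^ 200 : ℝ)) : ℂ) + x * (gam (T : ℂ) x r - g)
          + (x - y) * g - (g' - (c - ((r : ℂ) + 1) * ((Tm : ℝ) / 2 ^ 200 : ℝ) + y * g)) := by
        simp only [gam]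
        push_cast
        ring
      rw [e]
      have t1 : ‖((r : ℂ) + 1) * (((T - (Tm : ℝ) / 2 ^ 200 : ℝ)) : ℂ)‖ ≤ 56 * (1 / 2 ^ 200) := by
        rw [norm_mul, Complex.norm_real, Real.norm_eq_abs]
        refine mul_le_mul ?_ hT (abs_nonneg _) (by norm_num)
        have : ((r : ℂ) + 1) = ((r + 1 : ℕ) : ℂ) := by push_cast; ring
        rw [this, Complex.norm_natCast]
        exact_mod_cast (by omega : r + 1 ≤ 56)
      have t2 : ‖x * (gam (T : ℂ) x r - g)‖ ≤ 1.04 * (5 / 10 ^ 52 * (1.04 ^ r - 1)) := by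
        rw [norm_mul]
        exact mul_le_mul hx' h2 (norm_nonneg _) (by norm_num)
      have t3 : ‖(x - y) * g‖ ≤ 1 / 10 ^ 58 * 2 ^ 16 := by
        rw [norm_mul]
        exact mul_le_mul hx h4 (norm_nonneg _) (by norm_num)
      refine (norm_sub_le _ _).trans ?_
      refine (add_le_add (norm_add_le _ _) h3).trans ?_
      refine (add_le_add (add_le_add (norm_add_le _ _) t3) le_rfl).trans ?_
      refine (add_le_add (add_le_add (add_le_add (norm_sub_le _ _) t2) le_rfl) le_rfl).trans ?_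
      refine (add_le_add (add_le_add (add_le_add (add_le_add hc' t1) le_rfl) le_rfl) le_rfl).trans ?_
      rw [pow_succ (1.04 : ℝ) r]
      have h5 : (1.2 : ℝ) / 10 ^ 53 + 56 * (1 / 2 ^ 200) + 1 / 10 ^ 58 * 2 ^ 16 + 1 / 10 ^ 58 ≤
          5 / 10 ^ 52 * 0.04 := by norm_num
      have h6 : (0 : ℝ) ≤ 5 / 10 ^ 52 * 1.04 ^ r := by positivity
      linarith
  intro r hr
  refine (key r hr).trans ?_
  have h7 : (1.04 : ℝ) ^ r ≤ 1.04 ^ 55 := pow_le_pow_right₀ (by norm_num) hr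
  have h8 : (5 : ℝ) / 10 ^ 52 * (1.04 ^ 55 - 1) ≤ 4 / 10 ^ 51 := by norm_num
  refine le_trans ?_ h8
  exact mul_le_mul_of_nonneg_left (by linarith) (by positivity)


theorem gam_ofReal (T x : ℝ) (r : ℕ) : ((gam T x r : ℝ) : ℂ) = gam (T : ℂ) (x : ℂ) r := by
  induction r with
  | zero => simp [gam]
  | succ r ih =>
    simp only [gam]
    push_cast
    rw [ih]

/-- what we need about a real mode -/
theorem real_mode {m : MInt} (h : MFacts m) (hi : m.xi = 0) {T : ℝ}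
    (hT : |T - (Tm : ℝ) / 2 ^ 200| ≤ 1 / 2 ^ 200) {x : ℝ}
    (hx : |x - (m.xr : ℝ) / 10 ^ 65| ≤ 1 / 10 ^ 58) :
    x - 1 ≠ 0 ∧ |(x - 1)⁻¹ - (m.vr : ℝ) / 2 ^ 200| ≤ 1.5 / 10 ^ 55 ∧ |(x - 1)⁻¹| ≤ 38 ∧
    |x / (x - 1) ^ 2 - (m.cr : ℝ) / 2 ^ 200| ≤ 1.2 / 10 ^ 53 ∧
    ∀ r, r ≤ 55 → |gam T x r - (m.gr r : ℝ) / 2 ^ 200| ≤ 4 / 10 ^ 51 := by
  have hx' : ‖(x : ℂ) - cs (10 ^ 65) m.xr m.xi‖ ≤ 1 / 10 ^ 58 := by
    have : (x : ℂ) - cs (10 ^ 65) m.xr m.xi = ((x - (m.xr : ℝ) / 10 ^ 65 : ℝ) : ℂ) := by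
      apply Complex.ext
      · rw [Complex.sub_re, Complex.ofReal_re, Complex.ofReal_re]
        rfl
      · rw [Complex.sub_im, Complex.ofReal_im, Complex.ofReal_im, cs, hi]
        simp
    rw [this, Complex.norm_real]
    exact hx
  obtain ⟨h1, h2, h3, h4, h5⟩ := mode_err h hT hx'
  refine ⟨?_, ?_, ?_, ?_, ?_⟩
  · intro h0
    apply h1
    exact_mod_cast congrArg (fun y : ℝ => (y : ℂ)) h0
  · refine le_trans ?_ h2
    refine le_trans (le_of_eq ?_) (Complex.abs_re_le_norm _)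
    congr 1
    rw [← Complex.ofReal_one, ← Complex.ofReal_sub, ← Complex.ofReal_inv, Complex.sub_re,
      Complex.ofReal_re]
    rfl
  · refine le_trans (le_of_eq ?_) h3
    rw [← Complex.ofReal_one, ← Complex.ofReal_sub, ← Complex.ofReal_inv, Complex.norm_real]
    rfl
  · refine le_trans ?_ h4
    refine le_trans (le_of_eq ?_) (Complex.abs_re_le_norm _)
    congr 1
    rw [← Complex.ofReal_one, ← Complex.ofReal_sub, ← Complex.ofReal_pow, ← Complex.ofReal_div,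
      Complex.sub_re, Complex.ofReal_re]
    rfl
  · intro r hr
    refine le_trans ?_ (h5 r hr)
    refine le_trans (le_of_eq ?_) (Complex.abs_re_le_norm _)
    congr 1
    rw [← gam_ofReal, Complex.sub_re, Complex.ofReal_re]
    rfl

theorem a0c_eq : a0c = (A0 : ℝ) / 10 ^ 75 := by
  unfold a0c A0
  push_cast
  ring

theorem azc_eq : azc = (AZ : ℝ) / 10 ^ 75 := by
  unfold azc AZ
  push_cast
  ring

theorem a2c_re : a2c.re = (A2 : ℝ) / 10 ^ 75 := by
  unfold a2c A2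
  push_cast
  ring

theorem a2c_im : a2c.im = (B2 : ℝ) / 10 ^ 75 := by
  unfold a2c B2
  push_cast
  ring

theorem a0c_le : |a0c| ≤ 1 / 10 ^ 6 := by
  unfold a0c
  rw [abs_le]
  constructor <;> norm_num

theorem azc_le : |azc| ≤ 1 / 10 ^ 6 := by
  unfold azc
  rw [abs_le]
  constructor <;> norm_num

theorem a2c_le : ‖a2c‖ ≤ 1 / 10 ^ 5 := by
  refine (norm_le_of (c := 5 / 10 ^ 6) ?_ ?_).trans (by norm_num)
  · unfold a2c
    rw [abs_le]
    constructor <;> norm_num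
  · unfold a2c
    rw [abs_le]
    constructor <;> norm_num

/-- error of the combination of the three modes -/
theorem combo {u u' w w' ε : ℝ} {v v' : ℂ} (h1 : |u - u'| ≤ ε) (h2 : |w - w'| ≤ ε)
    (h3 : ‖v - v'‖ ≤ ε) :
    |(a0c * u + azc * w + (a2c * v).re) - (a0c * u' + azc * w' + (a2c * v').re)| ≤ ε * (2 / 10 ^ 5) := by
  have hε : 0 ≤ ε := (abs_nonneg _).trans h1
  have e : (a0c * u + azc * w + (a2c * v).re) - (a0c * u' + azc * w' + (a2c * v').re) =
      a0c * (u - u') + azc * (w - w') + (a2c * (v - v')).re := by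
    rw [mul_sub a2c, Complex.sub_re]
    ring
  rw [e]
  have t1 : |a0c * (u - u')| ≤ 1 / 10 ^ 6 * ε := by
    rw [abs_mul]
    exact mul_le_mul a0c_le h1 (abs_nonneg _) (by norm_num)
  have t2 : |azc * (w - w')| ≤ 1 / 10 ^ 6 * ε := by
    rw [abs_mul]
    exact mul_le_mul azc_le h2 (abs_nonneg _) (by norm_num)
  have t3 : |(a2c * (v - v')).re| ≤ 1 / 10 ^ 5 * ε := by
    refine (Complex.abs_re_le_norm _).trans ?_
    rw [norm_mul]
    exact mul_le_mul a2c_le h3 (norm_nonneg _) (by norm_num)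
  refine (abs_add_le _ _).trans ((add_le_add (abs_add_le _ _) le_rfl).trans ?_)
  linarith

theorem start {T x0 z : ℝ} {th : ℂ} (hlo : Tlo ≤ T) (hhi : T ≤ Thi) (hR : Roots T x0 z th) :
    (∀ n, n ≤ 55 → |aF n - (brest0 T x0 z th).r (55 - n)| ≤ Ce / 4) ∧
    |aE 0 - (brest0 T x0 z th).E| ≤ Ce ∧ |aR 0 - (brest0 T x0 z th).R| ≤ Ce := by
  obtain ⟨hT1, hT2, hT3⟩ := T_facts hlo hhi
  have hx : |x0 - (m0.xr : ℝ) / 10 ^ 65| ≤ 1 / 10 ^ 58 := by
    have := hR.x0_enc
    simpa only [m0, Int.cast_natCast] using this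
  have hz : |z - (mz.xr : ℝ) / 10 ^ 65| ≤ 1 / 10 ^ 58 := by
    have := hR.z_enc
    simpa only [mz, Int.cast_natCast] using this
  have ht : ‖th - cs (10 ^ 65) mt.xr mt.xi‖ ≤ 1 / 10 ^ 58 := by
    have := hR.th_enc
    simpa only [mt, cs, Int.cast_natCast] using this
  obtain ⟨x1, x2, x3, x4, x5⟩ := real_mode (mfacts m0 m0_okV m0_okG) rfl hT3 hx
  obtain ⟨z1, z2, z3, z4, z5⟩ := real_mode (mfacts mz mz_okV mz_okG) rfl hT3 hz
  obtain ⟨t1, t2, t3, t4, t5⟩ := mode_err (mfacts mt mt_okV mt_okG) hT3 ht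
  have s200 : (0 : ℝ) < 2 ^ 200 := by positivity
  have s75 : (0 : ℝ) < 10 ^ 75 := by positivity
  refine ⟨?_, ?_, ?_⟩
  · intro n hn
    rcases Nat.lt_or_ge n 55 with hn' | hn'
    · have hr : 55 - n ≠ 0 := by omega
      have h1 := combo (x5 (55 - n) (by omega)) (z5 (55 - n) (by omega)) (t5 (55 - n) (by omega))
      have h2 := nearZ_spec (allB_spec okF_ok n (by omega))
      simp only [Int.cast_add, Int.cast_sub, Int.cast_mul, Int.cast_pow, Int.cast_ofNat,
        Int.cast_natCast, Int.cast_zero, sub_zero] at h2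
      have h3 : |aF n + ((55 - n : ℕ) : ℝ) / 56 + (a0c * ((m0.gr (55 - n) : ℝ) / 2 ^ 200) +
          azc * ((mz.gr (55 - n) : ℝ) / 2 ^ 200) +
          (a2c * cs (2 ^ 200) (mt.gr (55 - n)) (mt.gi (55 - n))).re)| ≤ 1 / 2 ^ 200 := by
        refine div_near' (s := 56 * 10 ^ 75 * 2 ^ 200) (by positivity) (h2.trans_eq ?_) ?_
        · field_simp
        · rw [Complex.mul_re, a2c_re, a2c_im, a0c_eq, azc_eq, Nat.cast_sub hn]
          simp only [cs, aF]
          push_cast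
          field_simp
          ring
      have h4 : aF n - (brest0 T x0 z th).r (55 - n) =
          (aF n + ((55 - n : ℕ) : ℝ) / 56 + (a0c * ((m0.gr (55 - n) : ℝ) / 2 ^ 200) +
          azc * ((mz.gr (55 - n) : ℝ) / 2 ^ 200) +
          (a2c * cs (2 ^ 200) (mt.gr (55 - n)) (mt.gi (55 - n))).re)) +
          ((a0c * gam T x0 (55 - n) + azc * gam T z (55 - n) + (a2c * gam (T : ℂ) th (55 - n)).re)
            - (a0c * ((m0.gr (55 - n) : ℝ) / 2 ^ 200) +
          azc * ((mz.gr (55 - n) : ℝ) / 2 ^ 200) +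
          (a2c * cs (2 ^ 200) (mt.gr (55 - n)) (mt.gi (55 - n))).re)) := by
        simp only [brest0, if_neg hr]
        ring
      rw [h4]
      refine (abs_add_le _ _).trans ((add_le_add h3 h1).trans ?_)
      unfold Ce
      norm_num
    · obtain rfl : n = 55 := by omega
      rw [aF55]
      simp only [brest0, Nat.sub_self, if_true, sub_zero, abs_zero]
      unfold Ce
      positivity
  · have h1 := combo x2 z2 t2
    have h2 := nearZ_spec okE_ok
    simp only [Int.cast_add, Int.cast_sub, Int.cast_mul, Int.cast_pow, Int.cast_ofNat,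
      Int.cast_natCast] at h2
    set sh : ℝ := a0c * ((m0.vr : ℝ) / 2 ^ 200) + azc * ((mz.vr : ℝ) / 2 ^ 200) +
      (a2c * cs (2 ^ 200) mt.vr mt.vi).re with hsh
    set s : ℝ := a0c * (x0 - 1)⁻¹ + azc * (z - 1)⁻¹ + (a2c * (th - 1)⁻¹).re with hs
    have h3 : |aE 0 - (1 / 56 + (Tm : ℝ) / 2 ^ 200 * sh)| ≤ 1 / 2 ^ 200 := by
      rw [show (2 : ℝ) ^ 400 = 2 ^ 200 * 2 ^ 200 by rw [← pow_add]] at h2
      refine div_near' (s := 56 * 10 ^ 75 * 2 ^ 200 * 2 ^ 200) (by positivity) (h2.trans_eq ?_) ?_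
      · field_simp
      · rw [hsh, Complex.mul_re, a2c_re, a2c_im, a0c_eq, azc_eq]
        simp only [cs, aE]
        generalize (2 : ℝ) ^ 200 = y at s200 ⊢
        generalize (10 : ℝ) ^ 75 = w at s75 ⊢
        field_simp
        ring
    have h4 : (brest0 T x0 z th).E = 1 / 56 + T * s := by
      rw [hs]
      simp only [brest0]
      have : (a2c * T / (th - 1)).re = T * (a2c * (th - 1)⁻¹).re := by
        rw [← Complex.re_ofReal_mul]
        congr 1
        ring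
      rw [this]
      ring
    have h5 : |s| ≤ 1 := by
      have e1 : |a0c * (x0 - 1)⁻¹| ≤ 1 / 10 ^ 6 * 38 := by
        rw [abs_mul]
        exact mul_le_mul a0c_le x3 (abs_nonneg _) (by norm_num)
      have e2 : |azc * (z - 1)⁻¹| ≤ 1 / 10 ^ 6 * 38 := by
        rw [abs_mul]
        exact mul_le_mul azc_le z3 (abs_nonneg _) (by norm_num)
      have e3 : |(a2c * (th - 1)⁻¹).re| ≤ 1 / 10 ^ 5 * 38 := by
        refine (Complex.abs_re_le_norm _).trans ?_
        rw [norm_mul]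
        exact mul_le_mul a2c_le t3 (norm_nonneg _) (by norm_num)
      refine (abs_add_le _ _).trans ((add_le_add (abs_add_le _ _) le_rfl).trans ?_)
      refine (add_le_add (add_le_add e1 e2) e3).trans ?_
      norm_num
    have h6 : aE 0 - (brest0 T x0 z th).E = (aE 0 - (1 / 56 + (Tm : ℝ) / 2 ^ 200 * sh))
        - (Tm : ℝ) / 2 ^ 200 * (s - sh) - (T - (Tm : ℝ) / 2 ^ 200) * s := by
      rw [h4]
      ring
    have h7 : |(Tm : ℝ) / 2 ^ 200 * (s - sh)| ≤ 38 * (1.5 / 10 ^ 55 * (2 / 10 ^ 5)) := by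
      rw [abs_mul]
      refine mul_le_mul ?_ h1 (abs_nonneg _) (by norm_num)
      rw [abs_of_nonneg (by positivity)]
      unfold Tm
      norm_num
    have h8 : |(T - (Tm : ℝ) / 2 ^ 200) * s| ≤ 1 / 2 ^ 200 * 1 := by
      rw [abs_mul]
      exact mul_le_mul hT3 h5 (abs_nonneg _) (by positivity)
    rw [h6]
    refine (abs_sub _ _).trans ((add_le_add (abs_sub _ _) h8).trans ?_)
    refine (add_le_add (add_le_add h3 h7) le_rfl).trans ?_
    unfold Ce
    norm_num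
  · have h1 := combo x4 z4 t4
    have h2 := nearZ_spec okR_ok
    simp only [Int.cast_add, Int.cast_sub, Int.cast_mul, Int.cast_pow, Int.cast_ofNat,
      Int.cast_natCast] at h2
    have h3 : |aR 0 - (a0c * ((m0.cr : ℝ) / 2 ^ 200) + azc * ((mz.cr : ℝ) / 2 ^ 200) +
      (a2c * cs (2 ^ 200) mt.cr mt.ci).re)| ≤ 1 / 2 ^ 200 := by
      refine div_near' (s := 10 ^ 75 * 2 ^ 200) (by positivity) (h2.trans_eq ?_) ?_
      · field_simp
      · rw [Complex.mul_re, a2c_re, a2c_im, a0c_eq, azc_eq]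
        simp only [cs, aR]
        field_simp
        ring
    have h4 : (brest0 T x0 z th).R = a0c * (x0 / (x0 - 1) ^ 2) + azc * (z / (z - 1) ^ 2) +
        (a2c * (th / (th - 1) ^ 2)).re := by
      simp only [brest0]
      have e1 : 1 / (x0 - 1) + 1 / (x0 - 1) ^ 2 = x0 / (x0 - 1) ^ 2 := by
        field_simp
        ring
      have e2 : 1 / (z - 1) + 1 / (z - 1) ^ 2 = z / (z - 1) ^ 2 := by
        field_simp
        ring
      have e3 : 1 / (th - 1) + 1 / (th - 1) ^ 2 = th / (th - 1) ^ 2 := by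
        field_simp
        ring
      rw [e1, e2, e3]
    have h5 : aR 0 - (brest0 T x0 z th).R = (aR 0 - (a0c * ((m0.cr : ℝ) / 2 ^ 200) +
      azc * ((mz.cr : ℝ) / 2 ^ 200) + (a2c * cs (2 ^ 200) mt.cr mt.ci).re)) -
      ((a0c * (x0 / (x0 - 1) ^ 2) + azc * (z / (z - 1) ^ 2) + (a2c * (th / (th - 1) ^ 2)).re) -
      (a0c * ((m0.cr : ℝ) / 2 ^ 200) + azc * ((mz.cr : ℝ) / 2 ^ 200) +
      (a2c * cs (2 ^ 200) mt.cr mt.ci).re)) := by
      rw [h4]
      ring
    rw [h5]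
    refine (abs_sub _ _).trans ((add_le_add h3 h1).trans ?_)
    unfold Ce
    norm_num

/-- the table of E and R is accurate -/
theorem main_err {T x0 z : ℝ} {th : ℂ} (hlo : Tlo ≤ T) (hhi : T ≤ Thi) (hR : Roots T x0 z th) :
    Orb T (brest T x0 z th) ∧
    ∀ n, n ≤ 1210 → |aE n - (brest T x0 z th n).E| ≤ Ce * 1.037 ^ n ∧
      |aR n - (brest T x0 z th n).R| ≤ Ce * 1.037 ^ n := by
  have h0 : brest T x0 z th 0 = brest0 T x0 z th := rfl
  have hO : Orb T (brest T x0 z th) := by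
    constructor
    · rw [h0]
      simp [brest0]
    · intro l
      exact Function.iterate_succ_apply' (badj T) l (brest0 T x0 z th)
  refine ⟨hO, ?_⟩
  obtain ⟨h1, h2, h3⟩ := start hlo hhi hR
  exact err hO hlo hhi (by rw [h0]; exact h1) (by rw [h0]; exact h2) (by rw [h0]; exact h3)

end SA.H38
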