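import Pool.Agent.Helper38_SA.TabC

/-! Orbits of `badj`, window recursion, and propagation of errors. -/

namespace SA.H38

open Finset

/-! ## exact orbits -/

structure Orb (T : ℝ) (b : ℕ → BV) : Prop where
  zero : (b 0).r 0 = 0
  step : ∀ l, b (l + 1) = badj T (b l)

variable {T : ℝ} {b : ℕ → BV}

theorem Orb.zero' (h : Orb T b) (l : ℕ) : (b l).r 0 = 0 := by
  cases l with
  | zero => exact h.zero
  | succ l => rw [h.step]; simp [badj]

theorem Orb.R (h : Orb T b) (l : ℕ) : (b (l + 1)).R = (b l).R - (b l).E / T := by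
  rw [h.step]; simp [badj]

theorem Orb.E (h : Orb T b) (l : ℕ) :
    56 * ((b (l + 1)).E - (b l).E) = (b l).r 55 - (b (l + 1)).R := by
  rw [h.R, h.step]; simp only [badj]; ring

theorem Orb.r (h : Orb T b) (l r : ℕ) :
    (b (l + 1)).r (r + 1) = (b l).r r - (b (l + 1)).R - ((b (l + 1)).E - (b l).E) * ((r : ℝ) + 1) := by
  have h1 : (b (l + 1)).E - (b l).E = ((b l).r 55 - (b (l + 1)).R) / 56 := by
    have := h.E l
    linarith
  rw [h1, h.R]
  have h2 : (b (l + 1)).r (r + 1) = (b l).r r - ((b l).R - (b l).E / T)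
      - ((b l).r 55 - ((b l).R - (b l).E / T)) * ((r + 1 : ℕ) : ℝ) / 56 := by
    rw [h.step]
    simp only [badj, Nat.add_one_ne_zero, if_false, Nat.add_one_sub_one]
    by_cases hr : r = 0
    · subst hr
      simp [h.zero']
    · rw [if_neg (by omega)]
  rw [h2]
  push_cast
  ring

theorem Orb.chain (h : Orb T b) (l s : ℕ) : ∀ k : ℕ, (b (l + k)).r (s + k) = (b l).r s
    - ∑ i ∈ range k, (b (l + 1 + i)).R - ((s : ℝ) + k + 1) * (b (l + k)).E
    + ∑ i ∈ range k, (b (l + 1 + i)).E + ((s : ℝ) + 1) * (b l).E := by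
  intro k
  induction k with
  | zero => simp
  | succ k ih =>
    rw [← add_assoc l k 1, ← add_assoc s k 1, h.r (l + k) (s + k), ih, sum_range_succ,
      sum_range_succ]
    rw [show l + 1 + k = l + k + 1 by omega]
    push_cast
    ring

/-! ## the window functional -/

noncomputable def wS (a r f : ℕ → ℝ) (n : ℕ) : ℝ :=
  if n ≤ 55 then f n - ∑ i ∈ range (n + 1), r (1 + i) + ∑ i ∈ range n, a (1 + i) + (56 - n) * a 0
  else ∑ i ∈ range 56, a (n - 55 + i) - ∑ i ∈ range 56, r (n - 54 + i)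

theorem Orb.wS (h : Orb T b) (n : ℕ) :
    56 * (b (n + 1)).E = wS (fun n => (b n).E) (fun n => (b n).R) (fun n => (b 0).r (55 - n)) n := by
  have h0 := h.E n
  unfold SA.H38.wS
  split_ifs with hn
  · have h1 := h.chain 0 (55 - n) n
    rw [zero_add, Nat.sub_add_cancel hn] at h1
    simp only [zero_add] at h1
    rw [sum_range_succ, show (1 + n) = n + 1 by omega]
    have h2 : (((55 - n : ℕ) : ℝ)) = 55 - n := by
      rw [Nat.cast_sub hn]; norm_num
    rw [h2] at h1
    simp only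
    linarith
  · obtain ⟨m, rfl⟩ : ∃ m, n = m + 55 := ⟨n - 55, by omega⟩
    have h1 := h.chain m 0 55
    rw [zero_add, h.zero'] at h1
    rw [show m + 55 - 55 = m by omega, show m + 55 - 54 = m + 1 by omega]
    rw [sum_range_succ' (fun i => (b (m + i)).E) 55, sum_range_succ (fun i => (b (m + 1 + i)).R) 55]
    have h3 : ∀ i, (b (m + (i + 1))).E = (b (m + 1 + i)).E := by
      intro i
      rw [show m + (i + 1) = m + 1 + i by omega]
    simp only [h3]
    rw [show m + 1 + 55 = m + 55 + 1 by omega]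
    simp only [add_zero]
    push_cast at h1
    linarith

theorem wS_zero (a r f : ℕ → ℝ) : wS a r f 0 = f 0 - r 1 + 56 * a 0 := by
  simp [wS]

theorem wS_lo (a r f : ℕ → ℝ) (n : ℕ) (hn : n + 1 ≤ 55) :
    wS a r f (n + 1) = wS a r f n + (f (n + 1) - f n) - r (n + 2) + a (n + 1) - a 0 := by
  unfold wS
  rw [if_pos hn, if_pos (by omega), sum_range_succ _ (n + 1), sum_range_succ (fun i => a (1 + i)) n,
    show 1 + (n + 1) = n + 2 by omega, show 1 + n = n + 1 by omega]
  push_cast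
  ring

theorem sum_shift (a : ℕ → ℝ) (m : ℕ) :
    ∑ i ∈ range 56, a (m + 1 + i) = ∑ i ∈ range 56, a (m + i) + a (m + 56) - a m := by
  have h1 := sum_range_succ (fun i => a (m + i)) 56
  have h2 := sum_range_succ' (fun i => a (m + i)) 56
  have h3 : ∀ i, a (m + (i + 1)) = a (m + 1 + i) := by
    intro i
    rw [show m + (i + 1) = m + 1 + i by omega]
  simp only [h3, add_zero] at h2
  linarith

theorem wS_hi (a r f : ℕ → ℝ) (hf : f 55 = 0) (n : ℕ) :
    wS a r f (n + 56) = wS a r f (n + 55) + a (n + 56) - a n - r (n + 57) + r (n + 1) := by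
  have hgen : ∀ m : ℕ, wS a r f (m + 55) =
      ∑ i ∈ range 56, a (m + i) - ∑ i ∈ range 56, r (m + 1 + i) := by
    intro m
    unfold wS
    split_ifs with hm
    · obtain rfl : m = 0 := by omega
      rw [sum_range_succ' (fun i => a (0 + i)) 55]
      simp only [zero_add, hf]
      have h3 : ∀ i, a (i + 1) = a (1 + i) := by
        intro i
        rw [add_comm]
      simp only [h3]
      push_cast
      ring
    · rw [show m + 55 - 55 = m by omega, show m + 55 - 54 = m + 1 by omega]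
  rw [show n + 56 = n + 1 + 55 by omega, hgen, hgen, sum_shift a n, sum_shift r (n + 1)]
  rw [show n + 1 + 55 = n + 56 by omega, show n + 1 + 56 = n + 57 by omega]
  ring

theorem wS_sub (a r f a' r' f' : ℕ → ℝ) (n : ℕ) :
    wS (fun i => a i - a' i) (fun i => r i - r' i) (fun i => f i - f' i) n =
      wS a r f n - wS a' r' f' n := by
  unfold wS
  split_ifs
  · simp only [sum_sub_distrib]
    ring
  · simp only [sum_sub_distrib]
    ring

/-! ## bounds -/

theorem geo_lo (n : ℕ) : (56 - (n : ℝ)) + ∑ i ∈ range n, (1.037 : ℝ) ^ (1 + i)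
    + ∑ i ∈ range (n + 1), (1.037 : ℝ) ^ (1 + i) + 1 ≤ 56 * 1.037 ^ (n + 1) := by
  induction n with
  | zero => norm_num
  | succ n ih =>
    rw [sum_range_succ _ (n + 1), sum_range_succ _ n]
    rw [show 1 + (n + 1) = n + 1 + 1 by omega, show 1 + n = n + 1 by omega]
    rw [pow_succ (1.037 : ℝ) (n + 1)]
    have h1 : (0 : ℝ) ≤ 1.037 ^ (n + 1) := by positivity
    push_cast
    rw [sum_range_succ _ n] at ih
    rw [show 1 + n = n + 1 by omega] at ih
    linarith

theorem wS_bound {α β φ : ℕ → ℝ} {C : ℝ} (hC : 0 ≤ C) (n : ℕ)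
    (hα : ∀ i, i ≤ n → |α i| ≤ C * 1.037 ^ i) (hβ : ∀ i, i ≤ n + 1 → |β i| ≤ C * 1.037 ^ i)
    (hφ : ∀ i, i ≤ 55 → |φ i| ≤ C / 4) :
    |wS α β φ n| ≤ 56 * (C * 1.037 ^ (n + 1)) - C / 2 := by
  unfold wS
  split_ifs with hn
  · have h1 : |∑ i ∈ range (n + 1), β (1 + i)| ≤ ∑ i ∈ range (n + 1), C * (1.037 : ℝ) ^ (1 + i) := by
      refine (abs_sum_le_sum_abs _ _).trans (sum_le_sum fun i hi => ?_)
      rw [mem_range] at hi
      exact hβ _ (by omega)
    have h2 : |∑ i ∈ range n, α (1 + i)| ≤ ∑ i ∈ range n, C * (1.037 : ℝ) ^ (1 + i) := by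
      refine (abs_sum_le_sum_abs _ _).trans (sum_le_sum fun i hi => ?_)
      rw [mem_range] at hi
      exact hα _ (by omega)
    have h3 : |(56 - (n : ℝ)) * α 0| ≤ (56 - (n : ℝ)) * C := by
      rw [abs_mul]
      have : (0 : ℝ) ≤ 56 - n := by
        have : (n : ℝ) ≤ 55 := by exact_mod_cast hn
        linarith
      rw [abs_of_nonneg this]
      have h4 := hα 0 (Nat.zero_le _)
      rw [pow_zero, mul_one] at h4
      exact mul_le_mul_of_nonneg_left h4 this
    rw [← mul_sum] at h1 h2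
    have h5 := geo_lo n
    have h6 := mul_le_mul_of_nonneg_left h5 hC
    have h7 := hφ n hn
    have h8 := abs_le.1 h1
    have h9 := abs_le.1 h2
    have h10 := abs_le.1 h3
    have h11 := abs_le.1 h7
    rw [abs_le]
    constructor <;> nlinarith
  · obtain ⟨m, rfl⟩ : ∃ m, n = m + 55 := ⟨n - 55, by omega⟩
    rw [show m + 55 - 55 = m by omega, show m + 55 - 54 = m + 1 by omega]
    have h1 : |∑ i ∈ range 56, β (m + 1 + i)| ≤ ∑ i ∈ range 56, C * (1.037 : ℝ) ^ (m + 1 + i) := by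
      refine (abs_sum_le_sum_abs _ _).trans (sum_le_sum fun i hi => ?_)
      rw [mem_range] at hi
      exact hβ _ (by omega)
    have h2 : |∑ i ∈ range 56, α (m + i)| ≤ ∑ i ∈ range 56, C * (1.037 : ℝ) ^ (m + i) := by
      refine (abs_sum_le_sum_abs _ _).trans (sum_le_sum fun i hi => ?_)
      rw [mem_range] at hi
      exact hα _ (by omega)
    have h3 : ∑ i ∈ range 56, (1.037 : ℝ) ^ i = (1.037 ^ 56 - 1) / (1.037 - 1) :=
      geom_sum_eq (by norm_num) 56
    simp only [pow_add _ m, pow_add _ (m + 1), ← mul_sum, h3] at h1 h2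
    have h4 : (1 : ℝ) ≤ 1.037 ^ m := one_le_pow₀ (by norm_num)
    have h5 := abs_le.1 h1
    have h6 := abs_le.1 h2
    rw [show m + 55 + 1 = m + 56 by omega, pow_add _ m 56]
    set p : ℝ := 1.037 ^ m with hp
    have h8 : (1.037 : ℝ) ^ 1 * ((1.037 ^ 56 - 1) / (1.037 - 1)) + (1.037 ^ 56 - 1) / (1.037 - 1)
        ≤ 56 * 1.037 ^ 56 - 1 / 2 := by norm_num
    have h9 := mul_le_mul_of_nonneg_left h8 (mul_nonneg hC (by positivity : (0 : ℝ) ≤ p))
    have h10 : C / 2 ≤ C * p * (1 / 2) := by nlinarith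
    rw [abs_le]
    constructor <;> nlinarith

end SA.H38
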